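import Pool.Agent.P.MP_317f4c_nt.Orbit

/-!
Transport to the integers and the two density estimates.
-/

set_option autoImplicit false
set_option maxRecDepth 8000

namespace Pool.Agent.P.MP_317f4c_nt

open St

theorem card_Q0 : Fintype.card (St × Bool × Bool × ZMod 2) = 56 := by
  simp only [Fintype.card_prod, Fintype.card_bool, ZMod.card]; rfl

theorem card_Q : Fintype.card Q = 1056 := by
  simp only [Q, Fintype.card_sum, card_Q0, Fintype.card_fin]

/-- numbering of the states -/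
noncomputable def idx : Q ≃ Fin 1056 := Fintype.equivFinOfCardEq card_Q

/-- the coding of configurations by integers -/
noncomputable def enc : Q × ℤ ≃ ℤ where
  toFun p := 1056 * p.2 + (idx p.1).val
  invFun k := (idx.symm ⟨(k % 1056).toNat, by omega⟩, k / 1056)
  left_inv p := by
    obtain ⟨s, n⟩ := p
    have h := (idx s).isLt
    simp only [Prod.mk.injEq]
    constructor
    · rw [Equiv.symm_apply_eq]; apply Fin.ext; simp only; omega
    · omega
  right_inv k := by
    simp only [Equiv.apply_symm_apply]; omega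

theorem enc_apply (s : Q) (n : ℤ) : enc (s, n) = 1056 * n + (idx s).val := rfl

/-- the permutation of the integers -/
noncomputable def g : ℤ → ℤ := fun k => enc (G (enc.symm k))

theorem g_bijective : Function.Bijective g :=
  enc.bijective.comp (G_bijective.comp enc.symm.bijective)

theorem g_iter (i : ℕ) (p : Q × ℤ) : g^[i] (enc p) = enc (G^[i] p) := by
  induction i with
  | zero => rfl
  | succ i ih =>
    rw [Function.iterate_succ_apply', Function.iterate_succ_apply', ih]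
    simp [g]

theorem g_affine : ∃ a b : ℕ → ℚ, ∀ n : ℤ,
    (g n : ℚ) = a (n % ((354816 : ℕ) : ℤ)).toNat * (n : ℚ) + b (n % ((354816 : ℕ) : ℤ)).toNat := by
  have key : ∀ r : ℕ, ∃ a b : ℚ, ∀ n : ℤ, (n % ((354816 : ℕ) : ℤ)).toNat = r →
      (g n : ℚ) = a * (n : ℚ) + b := by
    intro r
    obtain ⟨⟨s, m⟩, hr⟩ := enc.surjective (r : ℤ)
    obtain ⟨s', a, c, h⟩ := G_affine s m
    refine ⟨a, 1056 * c + ((idx s').val : ℚ) - a * ((idx s).val : ℚ), fun n hn => ?_⟩
    obtain ⟨⟨s1, m1⟩, rfl⟩ := enc.surjective n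
    rw [enc_apply] at hr hn
    have h1 := (idx s).isLt
    have h2 := (idx s1).isLt
    have hs : s1 = s := idx.injective (Fin.ext (by omega))
    subst hs
    obtain ⟨e1, e2⟩ := h m1 (by omega)
    have e3 : g (enc (s1, m1)) = enc (s', (G (s1, m1)).2) := by
      simp only [g, Equiv.symm_apply_apply]; rw [← e1]
    rw [e3, enc_apply, enc_apply]
    push_cast
    rw [e2]; ring
  choose a b hab using key
  exact ⟨a, b, fun n => hab _ n rfl⟩

/-- the part of the orbit in `[-N, N]` -/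
def S (N : ℕ) : Set ℤ := {k : ℤ | -(N : ℤ) ≤ k ∧ k ≤ (N : ℤ) ∧
  ∃ i : ℕ, g^[i] (enc (base 0)) = k ∨ g^[i] k = enc (base 0)}

theorem S_finite (N : ℕ) : (S N).Finite :=
  (Set.finite_Icc (-(N : ℤ)) N).subset (fun _ h => ⟨h.1, h.2.1⟩)

theorem orbit_iff (p : Q × ℤ) :
    (∃ i : ℕ, g^[i] (enc (base 0)) = enc p ∨ g^[i] (enc p) = enc (base 0)) ↔
      (Fw (base 0) p ∨ Fw p (base 0)) := by
  simp only [g_iter, enc.injective.eq_iff, Fw, exists_or]

theorem lower (K : ℕ) (hK : ((K + 1 : ℕ) : ZMod 2) = 0) :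
    (1283 : ℝ) * 3 ^ (K + 1) - 1000 ≤ ((S (1056 * 3 ^ (K + 1))).ncard : ℝ) := by
  classical
  set D : Finset ℤ := (Finset.Ioc (-(3 : ℤ) ^ (K + 1)) (-3 ^ K) ∪
    Finset.Ioc ((3 : ℤ) ^ K) (3 ^ (K + 1) - 1)) \ bad (K + 1) with hD
  have p1 := pow3_pos K
  have p2 : (3 : ℤ) ^ (K + 1) = 3 * 3 ^ K := by ring
  have hsub : (((Finset.univ : Finset (Fin 1000)) ×ˢ D).image
      (fun p => enc (Sum.inr p.1, p.2)) : Set ℤ) ⊆ S (1056 * 3 ^ (K + 1)) := by
    intro k hk
    simp only [Finset.coe_image, Set.mem_image, Finset.mem_coe, Finset.mem_product,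
      Finset.mem_univ, true_and] at hk
    obtain ⟨⟨i, n⟩, hn, rfl⟩ := hk
    simp only [hD, Finset.mem_sdiff, Finset.mem_union, Finset.mem_Ioc] at hn
    have h1 := (idx (Sum.inr i)).isLt
    refine ⟨?_, ?_, ?_⟩
    · rw [enc_apply]; push_cast; omega
    · rw [enc_apply]; push_cast; omega
    · rw [orbit_iff, chain_mem_iff, par_main K n hn.2 (by omega) (by omega) (by omega), hK]
  have hcard := Set.ncard_le_ncard hsub (S_finite _)
  rw [Set.ncard_coe_finset, Finset.card_image_of_injective _ (by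
    rintro ⟨i, n⟩ ⟨i', n'⟩ h
    have := enc.injective h
    simpa using this), Finset.card_product, Finset.card_univ, Fintype.card_fin] at hcard
  have hD1 : (Finset.Ioc (-(3 : ℤ) ^ (K + 1)) (-3 ^ K) ∪
      Finset.Ioc ((3 : ℤ) ^ K) (3 ^ (K + 1) - 1)).card ≤ D.card + (bad (K + 1)).card := by
    rw [hD]; exact Finset.card_le_card_sdiff_add_card
  rw [Finset.card_union_of_disjoint (by
    rw [Finset.disjoint_left]; intro n h1 h2
    simp only [Finset.mem_Ioc] at h1 h2; omega), Int.card_Ioc, Int.card_Ioc] at hD1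
  have hD2 : 4 * (3 : ℤ) ^ K - 1 ≤ (D.card : ℤ) + ((bad (K + 1)).card : ℤ) := by omega
  have hD3 : 4 * (3 : ℝ) ^ K - 1 ≤ (D.card : ℝ) + ((bad (K + 1)).card : ℝ) := by
    exact_mod_cast hD2
  have hb := bad_card (K + 1)
  have hcard' : (1000 : ℝ) * D.card ≤ ((S (1056 * 3 ^ (K + 1))).ncard : ℝ) := by
    exact_mod_cast hcard
  have hp : (0 : ℝ) < 3 ^ K := by positivity
  rw [pow_succ (3 : ℝ)] at hb ⊢
  linarith

theorem upper (K : ℕ) (hK : ((K + 1 : ℕ) : ZMod 2) = 1) :
    ((S (1056 * 3 ^ (K + 1))).ncard : ℝ) ≤ (829 : ℝ) * 3 ^ (K + 1) + 2056 := by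
  classical
  set D : Finset ℤ := insert (-(3 : ℤ) ^ (K + 1))
    (Finset.Icc (-(3 : ℤ) ^ K) (3 ^ K) ∪ bad (K + 1)) with hD
  have p1 := pow3_pos K
  have p2 : (3 : ℤ) ^ (K + 1) = 3 * 3 ^ K := by ring
  have hsub : S (1056 * 3 ^ (K + 1)) ⊆
      (((((Finset.univ : Finset (St × Bool × Bool × ZMod 2)) ×ˢ
          Finset.Icc (-(3 : ℤ) ^ (K + 1)) (3 ^ (K + 1))).image
        (fun p => enc (Sum.inl p.1, p.2))) ∪
      (((Finset.univ : Finset (Fin 1000)) ×ˢ D).image
        (fun p => enc (Sum.inr p.1, p.2))) : Finset ℤ) : Set ℤ) := by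
    intro k hk
    obtain ⟨⟨s, n⟩, rfl⟩ := enc.surjective k
    obtain ⟨h1, h2, h3⟩ := hk
    rw [enc_apply] at h1 h2
    push_cast at h1 h2
    have h4 := (idx s).isLt
    simp only [Finset.coe_union, Finset.coe_image, Set.mem_union, Set.mem_image, Finset.mem_coe,
      Finset.mem_product, Finset.mem_univ, true_and]
    rcases s with s | i
    · left
      exact ⟨(s, n), by simp only [Finset.mem_Icc]; omega, rfl⟩
    · right
      refine ⟨(i, n), ?_, rfl⟩
      rw [orbit_iff, chain_mem_iff] at h3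
      simp only [hD, Finset.mem_insert, Finset.mem_union, Finset.mem_Icc]
      by_contra hcon
      simp only [not_or] at hcon
      rw [par_main K n hcon.2.2 (by omega) (by omega) (by omega), hK] at h3
      exact absurd h3 (by decide)
  have hcard := Set.ncard_le_ncard hsub (Finset.finite_toSet _)
  rw [Set.ncard_coe_finset] at hcard
  have hcard2 := hcard.trans ((Finset.card_union_le _ _).trans
    (Nat.add_le_add Finset.card_image_le Finset.card_image_le))
  rw [Finset.card_product, Finset.card_product, Finset.card_univ, Finset.card_univ, card_Q0,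
    Fintype.card_fin, Int.card_Icc] at hcard2
  have hD1 : D.card ≤ (Finset.Icc (-(3 : ℤ) ^ K) (3 ^ K)).card + (bad (K + 1)).card + 1 :=
    (Finset.card_insert_le _ _).trans (Nat.add_le_add_right (Finset.card_union_le _ _) 1)
  rw [Int.card_Icc] at hD1
  have hD2 : (((S (1056 * 3 ^ (K + 1))).ncard : ℕ) : ℤ) ≤ 56 * (6 * 3 ^ K + 1) +
      1000 * (2 * 3 ^ K + 2 + ((bad (K + 1)).card : ℤ)) := by omega
  have hD3 : (((S (1056 * 3 ^ (K + 1))).ncard : ℕ) : ℝ) ≤ 56 * (6 * 3 ^ K + 1) +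
      1000 * (2 * 3 ^ K + 2 + ((bad (K + 1)).card : ℝ)) := by exact_mod_cast hD2
  have hb := bad_card (K + 1)
  have hp : (0 : ℝ) < 3 ^ K := by positivity
  rw [pow_succ (3 : ℝ)] at hb ⊢
  linarith

theorem no_density (d : ℝ) : ¬ Filter.Tendsto
    (fun N : ℕ => (((S N).ncard : ℕ) : ℝ) / (2 * (N : ℝ) + 1)) Filter.atTop (nhds d) := by
  intro h
  have t : ∀ c : ℕ, Filter.Tendsto (fun j : ℕ => 1056 * 3 ^ (2 * j + c + 1))
      Filter.atTop Filter.atTop := by
    intro c
    refine Filter.tendsto_atTop_mono (fun j => ?_) Filter.tendsto_id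
    have := Nat.lt_pow_self (n := 2 * j + c + 1) (by norm_num : 1 < 3)
    simp only [id]; omega
  have h1 : 1 / 2 ≤ d := by
    refine ge_of_tendsto' (h.comp (t 1)) (fun j => ?_)
    have := lower (2 * j + 1) (by
      rw [show 2 * j + 1 + 1 = 2 * (j + 1) by ring]; push_cast
      rw [show (2 : ZMod 2) = 0 from rfl]; simp)
    simp only [Function.comp]
    rw [le_div_iff₀ (by positivity)]
    push_cast
    have hp : (9 : ℝ) ≤ 3 ^ (2 * j + 1 + 1) := by
      have : (1 : ℝ) ≤ 3 ^ (2 * j) := one_le_pow₀ (by norm_num)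
      rw [pow_succ, pow_succ]; linarith
    linarith
  have h2 : d ≤ 9 / 20 := by
    refine le_of_tendsto' (h.comp (t 2)) (fun j => ?_)
    have := upper (2 * j + 2) (by
      rw [show 2 * j + 2 + 1 = 2 * (j + 1) + 1 by ring]; push_cast
      rw [show (2 : ZMod 2) = 0 from rfl]; simp)
    simp only [Function.comp]
    rw [div_le_iff₀ (by positivity)]
    push_cast
    have hp : (27 : ℝ) ≤ 3 ^ (2 * j + 2 + 1) := by
      have : (1 : ℝ) ≤ 3 ^ (2 * j) := one_le_pow₀ (by norm_num)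
      rw [pow_succ, pow_succ, pow_succ]; linarith
    linarith
  linarith

end Pool.Agent.P.MP_317f4c_nt
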