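import Mathlib

/-!
A reversible counter machine acting on integers by residue-class-wise affine steps.
Started at `(s0, x)` it always stops, and it stops in an accepting configuration exactly when
`x ≡ 3 ^ k` modulo `14 * 3 ^ (2 * k + 3)` for some `k`.
-/

set_option autoImplicit false

namespace Pool.Agent.P.MP_317f4c_nt

/-- control states -/
inductive St : Type
  | s0 | t2 | t1 | p1 | b1 | t3 | p2
  deriving DecidableEq

instance : Fintype St :=
  ⟨{St.s0, St.t2, St.t1, St.p1, St.b1, St.t3, St.p2}, by intro x; cases x <;> simp⟩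

open St

/-- one forward step -/
def F : St × ℤ → Option (St × ℤ)
  | (s0, x) => if x % 2 = 1 ∧ x % 7 ≠ 0 then some (t2, 8 * x) else none
  | (t2, x) => if x % 2 = 0 then some (t2, 7 * (x / 2)) else
      if x % 3 = 0 then some (t1, x / 3) else if x % 7 = 0 then some (p1, x - 1) else none
  | (t1, x) => if x % 7 = 0 then some (t1, 8 * (x / 7)) else
      if x % 16 = 0 then some (t2, x) else none
  | (p1, y) => if y % 3 = 0 then some (p1, 7 * (y / 3)) else
      if y % 3 = 2 then some (b1, y) else none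
  | (b1, y) => if y % 7 = 0 then some (b1, 3 * (y / 7)) else
      if y % 2 = 0 then some (t3, y + 1) else none
  | (t3, x) => if x % 7 = 0 then some (t3, 4 * (x / 7)) else
      if x % 7 = 1 ∧ x % 2 = 0 then some (p2, x - 1) else none
  | (p2, y) => if y % 3 = 0 then some (p2, 4 * (y / 3)) else none

/-- one backward step -/
def B : St × ℤ → Option (St × ℤ)
  | (s0, _) => none
  | (t2, x) => if x % 7 = 0 then some (t2, 2 * (x / 7)) else
      if x % 16 = 8 then some (s0, x / 8) else if x % 16 = 0 then some (t1, x) else none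
  | (t1, x) => if x % 8 = 0 then some (t1, 7 * (x / 8)) else
      if x % 2 = 1 then some (t2, 3 * x) else none
  | (p1, y) => if y % 7 = 0 then some (p1, 3 * (y / 7)) else
      if y % 2 = 0 ∧ y % 3 ≠ 2 ∧ y % 7 = 6 then some (t2, y + 1) else none
  | (b1, y) => if y % 3 = 0 then some (b1, 7 * (y / 3)) else
      if y % 3 = 2 then some (p1, y) else none
  | (t3, x) => if x % 4 = 0 then some (t3, 7 * (x / 4)) else
      if x % 2 = 1 ∧ x % 7 ≠ 1 then some (b1, x - 1) else none
  | (p2, y) => if y % 4 = 0 then some (p2, 3 * (y / 4)) else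
      if y % 7 = 0 ∧ y % 2 = 1 then some (t3, y + 1) else none

theorem B_of_F (a c : St × ℤ) (h : F a = some c) : B c = some a := by
  obtain ⟨q, x⟩ := a
  cases q <;> simp only [F] at h <;> split_ifs at h <;>
    simp only [Option.some.injEq] at h <;> subst h <;> simp only [B] <;>
    split_ifs <;>
    first | omega | rfl | (simp only [Option.some.injEq, Prod.mk.injEq, true_and]; omega)

theorem F_of_B (a c : St × ℤ) (h : B c = some a) : F a = some c := by
  obtain ⟨q, x⟩ := c
  cases q <;> simp only [B] at h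
  · cases h
  all_goals
    split_ifs at h <;>
        simp only [Option.some.injEq] at h <;> subst h <;> simp only [F] <;>
        split_ifs <;>
        first | omega | rfl | (simp only [Option.some.injEq, Prod.mk.injEq, true_and]; omega)

/-- reachability by forward steps -/
def Reach : St × ℤ → St × ℤ → Prop := Relation.ReflTransGen (fun a c => F a = some c)

theorem Reach.refl (a : St × ℤ) : Reach a a := Relation.ReflTransGen.refl

theorem Reach.trans {a c e : St × ℤ} (h1 : Reach a c) (h2 : Reach c e) : Reach a e :=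
  Relation.ReflTransGen.trans h1 h2

theorem Reach.step {a c : St × ℤ} (h : F a = some c) : Reach a c :=
  Relation.ReflTransGen.single h

theorem Reach.unique {a e1 e2 : St × ℤ} (h1 : Reach a e1) (h2 : Reach a e2)
    (t1 : F e1 = none) (t2 : F e2 = none) : e1 = e2 := by
  induction h1 using Relation.ReflTransGen.head_induction_on with
  | refl =>
    rcases Relation.ReflTransGen.cases_head h2 with h | ⟨c, hc, _⟩
    · exact h
    · rw [t1] at hc; cases hc
  | head hac _ ih =>
    rcases Relation.ReflTransGen.cases_head h2 with h | ⟨c, hc, hr⟩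
    · subst h; rw [t2] at hac; cases hac
    · rw [hac] at hc; cases hc; exact ih hr

theorem loop_t2 (c : ℕ) (y : ℤ) : Reach (t2, 2 ^ c * y) (t2, 7 ^ c * y) := by
  induction c generalizing y with
  | zero => simpa using Reach.refl _
  | succ c ih =>
    have h : F (t2, 2 ^ (c + 1) * y) = some (t2, 2 ^ c * (7 * y)) := by
      have e : (2 : ℤ) ^ (c + 1) * y = 2 * (2 ^ c * y) := by ring
      have e' : (2 : ℤ) ^ c * (7 * y) = 7 * (2 ^ c * y) := by ring
      rw [e, e']; generalize 2 ^ c * y = w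
      simp only [F]; rw [if_pos (by omega)]; congr 2; omega
    have e : (7 : ℤ) ^ (c + 1) * y = 7 ^ c * (7 * y) := by ring
    rw [e]; exact (Reach.step h).trans (ih _)

theorem loop_t1 (c : ℕ) (y : ℤ) : Reach (t1, 7 ^ c * y) (t1, 8 ^ c * y) := by
  induction c generalizing y with
  | zero => simpa using Reach.refl _
  | succ c ih =>
    have h : F (t1, 7 ^ (c + 1) * y) = some (t1, 7 ^ c * (8 * y)) := by
      have e : (7 : ℤ) ^ (c + 1) * y = 7 * (7 ^ c * y) := by ring
      have e' : (7 : ℤ) ^ c * (8 * y) = 8 * (7 ^ c * y) := by ring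
      rw [e, e']; generalize 7 ^ c * y = w
      simp only [F]; rw [if_pos (by omega)]; congr 2; omega
    have e : (8 : ℤ) ^ (c + 1) * y = 8 ^ c * (8 * y) := by ring
    rw [e]; exact (Reach.step h).trans (ih _)

theorem loop_p1 (c : ℕ) (y : ℤ) : Reach (p1, 3 ^ c * y) (p1, 7 ^ c * y) := by
  induction c generalizing y with
  | zero => simpa using Reach.refl _
  | succ c ih =>
    have h : F (p1, 3 ^ (c + 1) * y) = some (p1, 3 ^ c * (7 * y)) := by
      have e : (3 : ℤ) ^ (c + 1) * y = 3 * (3 ^ c * y) := by ring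
      have e' : (3 : ℤ) ^ c * (7 * y) = 7 * (3 ^ c * y) := by ring
      rw [e, e']; generalize 3 ^ c * y = w
      simp only [F]; rw [if_pos (by omega)]; congr 2; omega
    have e : (7 : ℤ) ^ (c + 1) * y = 7 ^ c * (7 * y) := by ring
    rw [e]; exact (Reach.step h).trans (ih _)

theorem loop_b1 (c : ℕ) (y : ℤ) : Reach (b1, 7 ^ c * y) (b1, 3 ^ c * y) := by
  induction c generalizing y with
  | zero => simpa using Reach.refl _
  | succ c ih =>
    have h : F (b1, 7 ^ (c + 1) * y) = some (b1, 7 ^ c * (3 * y)) := by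
      have e : (7 : ℤ) ^ (c + 1) * y = 7 * (7 ^ c * y) := by ring
      have e' : (7 : ℤ) ^ c * (3 * y) = 3 * (7 ^ c * y) := by ring
      rw [e, e']; generalize 7 ^ c * y = w
      simp only [F]; rw [if_pos (by omega)]; congr 2; omega
    have e : (3 : ℤ) ^ (c + 1) * y = 3 ^ c * (3 * y) := by ring
    rw [e]; exact (Reach.step h).trans (ih _)

theorem loop_t3 (c : ℕ) (y : ℤ) : Reach (t3, 7 ^ c * y) (t3, 4 ^ c * y) := by
  induction c generalizing y with
  | zero => simpa using Reach.refl _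
  | succ c ih =>
    have h : F (t3, 7 ^ (c + 1) * y) = some (t3, 7 ^ c * (4 * y)) := by
      have e : (7 : ℤ) ^ (c + 1) * y = 7 * (7 ^ c * y) := by ring
      have e' : (7 : ℤ) ^ c * (4 * y) = 4 * (7 ^ c * y) := by ring
      rw [e, e']; generalize 7 ^ c * y = w
      simp only [F]; rw [if_pos (by omega)]; congr 2; omega
    have e : (4 : ℤ) ^ (c + 1) * y = 4 ^ c * (4 * y) := by ring
    rw [e]; exact (Reach.step h).trans (ih _)

theorem loop_p2 (c : ℕ) (y : ℤ) : Reach (p2, 3 ^ c * y) (p2, 4 ^ c * y) := by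
  induction c generalizing y with
  | zero => simpa using Reach.refl _
  | succ c ih =>
    have h : F (p2, 3 ^ (c + 1) * y) = some (p2, 3 ^ c * (4 * y)) := by
      have e : (3 : ℤ) ^ (c + 1) * y = 3 * (3 ^ c * y) := by ring
      have e' : (3 : ℤ) ^ c * (4 * y) = 4 * (3 ^ c * y) := by ring
      rw [e, e']; generalize 3 ^ c * y = w
      simp only [F]; rw [if_pos (by omega)]; congr 2; omega
    have e : (4 : ℤ) ^ (c + 1) * y = 4 ^ c * (4 * y) := by ring
    rw [e]; exact (Reach.step h).trans (ih _)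

theorem pow_mul_emod_ne (p a : ℤ) (hp : Prime p) (c : ℕ) (u : ℤ) (ha : ¬ p ∣ a)
    (hu : u % p ≠ 0) : (a ^ c * u) % p ≠ 0 := by
  intro h
  rcases hp.dvd_or_dvd (Int.dvd_of_emod_eq_zero h) with h1 | h1
  · exact ha (hp.dvd_of_dvd_pow h1)
  · exact hu (Int.emod_eq_zero_of_dvd h1)

theorem prime2 : Prime (2 : ℤ) := Int.prime_two
theorem prime3 : Prime (3 : ℤ) := Int.prime_three
theorem prime7 : Prime (7 : ℤ) := Int.prime_iff_natAbs_prime.mpr (by norm_num)

theorem main_loop (u : ℤ) (h2 : u % 2 ≠ 0) (h7 : u % 7 ≠ 0) (a m : ℕ) :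
    Reach (t2, 2 ^ (3 ^ (m + 1)) * (3 ^ a * u)) (t2, 7 ^ (3 ^ (m + 1 + a)) * u) := by
  induction a generalizing m with
  | zero => simpa using loop_t2 _ _
  | succ a ih =>
    have s1 := loop_t2 (3 ^ (m + 1)) (3 ^ (a + 1) * u)
    have o1 : ((7 : ℤ) ^ (3 ^ (m + 1)) * (3 ^ a * u)) % 2 ≠ 0 :=
      pow_mul_emod_ne 2 7 prime2 _ _ (by norm_num)
        (pow_mul_emod_ne 2 3 prime2 _ _ (by norm_num) h2)
    have s2 : F (t2, 7 ^ (3 ^ (m + 1)) * (3 ^ (a + 1) * u)) =
        some (t1, 7 ^ (3 ^ (m + 1)) * (3 ^ a * u)) := by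
      have e : (7 : ℤ) ^ (3 ^ (m + 1)) * (3 ^ (a + 1) * u) =
        3 * (7 ^ (3 ^ (m + 1)) * (3 ^ a * u)) := by ring
      rw [e]; generalize (7 : ℤ) ^ (3 ^ (m + 1)) * (3 ^ a * u) = w at *
      simp only [F]; rw [if_neg (by omega), if_pos (by omega)]; congr 2; omega
    have s3 := loop_t1 (3 ^ (m + 1)) (3 ^ a * u)
    have o2 : ((8 : ℤ) ^ (3 ^ (m + 1)) * (3 ^ a * u)) % 7 ≠ 0 :=
      pow_mul_emod_ne 7 8 prime7 _ _ (by norm_num)
        (pow_mul_emod_ne 7 3 prime7 _ _ (by norm_num) h7)
    have o3 : ((8 : ℤ) ^ (3 ^ (m + 1)) * (3 ^ a * u)) % 16 = 0 := by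
      obtain ⟨d, hd⟩ : ∃ d, 3 ^ (m + 1) = d + 2 := by
        refine ⟨3 ^ (m + 1) - 2, ?_⟩
        have : 1 ≤ 3 ^ m := Nat.one_le_pow _ _ (by norm_num)
        rw [pow_succ]; omega
      rw [hd]
      have e : (8 : ℤ) ^ (d + 2) * (3 ^ a * u) = 16 * (4 * 8 ^ d * (3 ^ a * u)) := by ring
      rw [e]; omega
    have s4 : F (t1, 8 ^ (3 ^ (m + 1)) * (3 ^ a * u)) =
        some (t2, 2 ^ (3 ^ (m + 1 + 1)) * (3 ^ a * u)) := by
      have e : (2 : ℤ) ^ (3 ^ (m + 1 + 1)) = 8 ^ (3 ^ (m + 1)) := by
        rw [pow_succ 3 (m + 1), mul_comm, pow_mul]; norm_num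
      rw [e]
      simp only [F]; rw [if_neg o2, if_pos o3]
    have s5 := ih (m + 1)
    have e : m + 1 + (a + 1) = m + 1 + 1 + a := by ring
    rw [e]
    exact s1.trans ((Reach.step s2).trans (s3.trans ((Reach.step s4).trans s5)))

end Pool.Agent.P.MP_317f4c_nt
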