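import Pool.Agent.P.MP_317f4c_nt.Run

/-!
The parity of the number of events before `n`, in closed form.
-/

set_option autoImplicit false

namespace Pool.Agent.P.MP_317f4c_nt

open Classical in
/-- indicator of the events -/
noncomputable def ev (x : ℤ) : ZMod 2 := if Ev x then 1 else 0

/-- `0` when `n` lies in `(-3 ^ k, 3 ^ k]` modulo `M k`, else `1` -/
def chi (k : ℕ) (n : ℤ) : ZMod 2 := if (n + 3 ^ k - 1) % M k < 2 * 3 ^ k then 0 else 1

/-- the track of the orbit above `n` -/
def par (n : ℤ) : ZMod 2 := ∑ k ∈ Finset.range n.natAbs, chi k n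

theorem M_big (k : ℕ) : 378 * 3 ^ k * 3 ^ k = M k := by unfold M; ring

theorem pow3_pos (k : ℕ) : (1 : ℤ) ≤ 3 ^ k := one_le_pow₀ (by norm_num)

theorem M_gt (k : ℕ) : 378 * 3 ^ k ≤ M k := by
  rw [← M_big]; have := pow3_pos k; nlinarith

theorem step_aux (a m n : ℤ) (ha : 1 ≤ a) (hm : 2 * a < m) :
    (if (n + 1 + a - 1) % m < 2 * a then (0 : ZMod 2) else 1) =
      (if (n + a - 1) % m < 2 * a then (0 : ZMod 2) else 1) +
        (if m ∣ n - a then 1 else 0) + (if m ∣ -n - a then 1 else 0) := by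
  have hm0 : 0 < m := by omega
  have r0 := Int.emod_nonneg (n + a - 1) hm0.ne'
  have r1 := Int.emod_lt_of_pos (n + a - 1) hm0
  have hq := Int.mul_ediv_add_emod (n + a - 1) m
  generalize (n + a - 1) % m = r at *
  generalize (n + a - 1) / m = q at *
  have h1 : m ∣ n - a ↔ r = 2 * a - 1 := by
    have e : n - a = m * q + (r - (2 * a - 1)) := by linear_combination -hq
    rw [e, dvd_add_right (dvd_mul_right m q)]
    constructor
    · intro h
      have := Int.eq_zero_of_abs_lt_dvd h (by rw [abs_lt]; omega)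
      omega
    · intro h; rw [h]; simp
  have h2 : m ∣ -n - a ↔ r = m - 1 := by
    have e : -n - a = m * (-q - 1) + (m - 1 - r) := by linear_combination hq
    rw [e, dvd_add_right (dvd_mul_right m _)]
    constructor
    · intro h
      have := Int.eq_zero_of_abs_lt_dvd h (by rw [abs_lt]; omega)
      omega
    · intro h; rw [h]; simp
  have h3 : (n + 1 + a - 1) % m = if r = m - 1 then 0 else r + 1 := by
    split_ifs with h
    · have e : n + 1 + a - 1 = m * (q + 1) := by rw [h] at hq; linear_combination -hq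
      rw [e]; simp
    · have e : n + 1 + a - 1 = (r + 1) + m * q := by linear_combination -hq
      rw [e, Int.add_mul_emod_self_left, Int.emod_eq_of_lt (by omega) (by omega)]
  rw [h3]
  simp only [h1, h2]
  split_ifs <;> first | omega | rfl

theorem chi_succ (k : ℕ) (n : ℤ) : chi k (n + 1) =
    chi k n + (if M k ∣ n - 3 ^ k then 1 else 0) + (if M k ∣ -n - 3 ^ k then 1 else 0) := by
  have := pow3_pos k
  have := M_gt k
  exact step_aux (3 ^ k) (M k) n (by omega) (by omega)

theorem chi_small (k : ℕ) (n : ℤ) (h1 : -3 ^ k < n) (h2 : n ≤ 3 ^ k) : chi k n = 0 := by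
  have := pow3_pos k
  have := M_gt k
  unfold chi
  rw [Int.emod_eq_of_lt (by omega) (by omega), if_pos (by omega)]

theorem lt_pow3 (k : ℕ) : (k : ℤ) < 3 ^ k := by
  exact_mod_cast Nat.lt_pow_self (by norm_num : 1 < 3)

theorem par_eq (n : ℤ) (N : ℕ) (h : ∀ k, N ≤ k → chi k n = 0) :
    par n = ∑ k ∈ Finset.range N, chi k n := by
  have e1 : ∑ k ∈ Finset.range N, chi k n = ∑ k ∈ Finset.range (N + n.natAbs), chi k n := by
    apply Finset.sum_subset
    · intro k; simp only [Finset.mem_range]; omega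
    · intro k _ hk; simp only [Finset.mem_range] at hk; exact h k (by omega)
  have e2 : par n = ∑ k ∈ Finset.range (N + n.natAbs), chi k n := by
    apply Finset.sum_subset
    · intro k; simp only [Finset.mem_range]; omega
    · intro k _ hk; simp only [Finset.mem_range] at hk
      have := lt_pow3 k
      exact chi_small k n (by omega) (by omega)
  rw [e1, e2]

theorem ev_eq (x : ℤ) (N : ℕ) (hN : x.natAbs ≤ N) :
    ev x = ∑ k ∈ Finset.range N, (if M k ∣ x - 3 ^ k then (1 : ZMod 2) else 0) := by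
  unfold ev
  split_ifs with h
  · obtain ⟨k, z, hz⟩ := h
    have hk : k < N := by
      have h1 := lt_pow3 k
      have h2 := M_gt k
      have h3 := pow3_pos k
      rcases lt_trichotomy z 0 with h | h | h
      · have : M k * z ≤ -M k := by nlinarith
        omega
      · rw [h] at hz; omega
      · have : 0 ≤ M k * z := by nlinarith
        omega
    rw [Finset.sum_eq_single k]
    · rw [if_pos ⟨z, hz⟩]
    · intro j _ hjk
      rw [if_neg]
      rintro ⟨z', hz'⟩
      have e : (3 : ℤ) ^ j * (1 + 3 * (14 * 3 ^ (j + 2) * z')) =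
          3 ^ k * (1 + 3 * (14 * 3 ^ (k + 2) * z)) := by
        unfold M at hz hz'; linear_combination hz - hz'
      exact hjk (split_unique e (by omega) (by omega)).1
    · intro hk'; exact absurd (Finset.mem_range.mpr hk) hk'
  · symm
    apply Finset.sum_eq_zero
    intro k _
    rw [if_neg (fun hk => h ⟨k, hk⟩)]

theorem par_succ (n : ℤ) : par (n + 1) = par n + ev n + ev (-n) := by
  have h1 := par_eq (n + 1) (n.natAbs + 1) (fun k hk => by
    have := lt_pow3 k
    exact chi_small k _ (by omega) (by omega))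
  have h2 := par_eq n (n.natAbs + 1) (fun k hk => by
    have := lt_pow3 k
    exact chi_small k _ (by omega) (by omega))
  rw [h1, h2, ev_eq n (n.natAbs + 1) (by omega), ev_eq (-n) (n.natAbs + 1) (by omega),
    ← Finset.sum_add_distrib, ← Finset.sum_add_distrib]
  exact Finset.sum_congr rfl (fun k _ => chi_succ k n)

theorem par_zero : par 0 = 0 := by simp [par]

/-- the exceptional set at scale `3 ^ K` -/
noncomputable def bad (K : ℕ) : Finset ℤ :=
  (Finset.range K).biUnion fun k =>
    (((Finset.Icc (-(2 * 3 ^ K / M k)) (2 * 3 ^ K / M k)).erase 0) ×ˢ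
      (Finset.Ioc (-(3 : ℤ) ^ k) (3 ^ k))).image fun p => M k * p.1 + p.2

theorem par_main (K : ℕ) (n : ℤ) (hn : n ∉ bad (K + 1)) (h1 : -3 ^ (K + 1) < n)
    (h2 : n ≤ 3 ^ (K + 1)) (h3 : n ≤ -3 ^ K ∨ 3 ^ K < n) : par n = ((K + 1 : ℕ) : ZMod 2) := by
  rw [par_eq n (K + 1) (fun k hk => by
    have : (3 : ℤ) ^ (K + 1) ≤ 3 ^ k := pow_le_pow_right₀ (by norm_num) hk
    exact chi_small k n (by omega) (by omega))]
  rw [Finset.sum_congr rfl (g := fun _ => (1 : ZMod 2))]
  · simp
  · intro k hk
    unfold chi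
    rw [if_neg]
    intro hlt
    apply hn
    have hk' : k ≤ K := by simpa [Nat.lt_succ_iff] using hk
    have p1 : (3 : ℤ) ^ k ≤ 3 ^ K := pow_le_pow_right₀ (by norm_num) hk'
    have p2 : (3 : ℤ) ^ (K + 1) = 3 * 3 ^ K := by ring
    have p3 := pow3_pos k
    have p4 := M_gt k
    have hm0 : 0 < M k := by omega
    have r0 := Int.emod_nonneg (n + 3 ^ k - 1) hm0.ne'
    have hq := Int.mul_ediv_add_emod (n + 3 ^ k - 1) (M k)
    generalize (n + 3 ^ k - 1) % M k = r at *
    generalize (n + 3 ^ k - 1) / M k = q at *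
    unfold bad
    simp only [Finset.mem_biUnion, Finset.mem_image, Finset.mem_product, Finset.mem_erase,
      Finset.mem_Icc, Finset.mem_Ioc]
    refine ⟨k, hk, (q, r - 3 ^ k + 1), ⟨⟨?_, ?_, ?_⟩, ?_, ?_⟩, ?_⟩
    · intro hq0; simp only at hq0; rw [hq0] at hq; omega
    · simp only
      rw [neg_le, Int.le_ediv_iff_mul_le hm0]
      have : -q * M k = -(M k * q) := by ring
      omega
    · simp only
      rw [Int.le_ediv_iff_mul_le hm0]
      have : q * M k = M k * q := by ring
      omega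
    · simp only; omega
    · simp only; omega
    · simp only; omega

theorem bad_card (K : ℕ) : (((bad K).card : ℕ) : ℝ) ≤ 3 ^ K / 20 := by
  have h1 : ((bad K).card : ℝ) ≤ ∑ k ∈ Finset.range K, (8 / 378 * 3 ^ K) * (1 / 3 : ℝ) ^ k := by
    unfold bad
    refine le_trans (Nat.cast_le.mpr Finset.card_biUnion_le) ?_
    rw [Nat.cast_sum]
    apply Finset.sum_le_sum
    intro k _
    refine le_trans (Nat.cast_le.mpr Finset.card_image_le) ?_
    have p3 := pow3_pos k
    have p4 := M_gt k
    have p5 := pow3_pos K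
    have hm0 : 0 < M k := by omega
    have hJ0 : 0 ≤ 2 * 3 ^ K / M k := Int.ediv_nonneg (by omega) hm0.le
    have hJ : 2 * 3 ^ K / M k * M k ≤ 2 * 3 ^ K := Int.ediv_mul_le _ hm0.ne'
    generalize 2 * 3 ^ K / M k = J at *
    rw [Finset.card_product, Finset.card_erase_of_mem (by simp [hJ0]), Int.card_Icc, Int.card_Ioc]
    have e1 : (((J + 1 - -J).toNat - 1 : ℕ) : ℤ) = 2 * J := by omega
    have e2 : ((((3 : ℤ) ^ k - -3 ^ k).toNat : ℕ) : ℤ) = 2 * 3 ^ k := by omega
    have e1' : (((J + 1 - -J).toNat - 1 : ℕ) : ℝ) = 2 * J := by exact_mod_cast e1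
    have e2' : ((((3 : ℤ) ^ k - -3 ^ k).toNat : ℕ) : ℝ) = 2 * 3 ^ k := by exact_mod_cast e2
    rw [Nat.cast_mul, e1', e2']
    rw [← M_big] at hJ
    have hJ' : (J : ℝ) * (378 * 3 ^ k * 3 ^ k) ≤ 2 * 3 ^ K := by exact_mod_cast hJ
    have hp : (0 : ℝ) < 3 ^ k := by positivity
    rw [one_div, inv_pow, ← div_eq_mul_inv, le_div_iff₀ hp]
    nlinarith
  rw [← Finset.mul_sum] at h1
  have h2 : ∑ k ∈ Finset.range K, (1 / 3 : ℝ) ^ k ≤ 3 / 2 := by
    rw [geom_sum_eq (by norm_num)]
    have : (0 : ℝ) < (1 / 3) ^ K := by positivity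
    rw [div_le_iff_of_neg (by norm_num)]
    linarith
  have hp : (0 : ℝ) < 3 ^ K := by positivity
  nlinarith

end Pool.Agent.P.MP_317f4c_nt
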