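import Pool.Agent.P.MP_317f4c_nt.Perm
import Pool.Agent.P.MP_317f4c_nt.Par

/-!
The orbit of the base point meets the delay chain exactly above the `n` with `par n = 0`.
-/

set_option autoImplicit false

namespace Pool.Agent.P.MP_317f4c_nt

open St

/-- forward reachability under `G` -/
def Fw (p p' : Q × ℤ) : Prop := ∃ i : ℕ, G^[i] p = p'

theorem Fw.refl (p : Q × ℤ) : Fw p p := ⟨0, rfl⟩

theorem Fw.trans {p p' p'' : Q × ℤ} (h1 : Fw p p') (h2 : Fw p' p'') : Fw p p'' := by
  obtain ⟨i, rfl⟩ := h1
  obtain ⟨j, rfl⟩ := h2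
  exact ⟨j + i, Function.iterate_add_apply _ _ _ _⟩

theorem Fw.step {p p' : Q × ℤ} (h : G p = p') : Fw p p' := ⟨1, h⟩

theorem fw_forward {a e : St × ℤ} (h : Reach a e) (σ : Bool) (b : ZMod 2) :
    Fw (Sum.inl (a.1, true, σ, b), a.2) (Sum.inl (e.1, true, σ, b), e.2) := by
  induction h with
  | refl => exact Fw.refl _
  | tail _ hs ih => exact ih.trans (Fw.step (G_fwd_some _ _ hs))

theorem fw_backward {a e : St × ℤ} (h : Reach a e) (σ : Bool) (b : ZMod 2) :
    Fw (Sum.inl (e.1, false, σ, b), e.2) (Sum.inl (a.1, false, σ, b), a.2) := by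
  induction h with
  | refl => exact Fw.refl _
  | tail _ hs ih => exact (Fw.step (G_bwd_some _ _ (B_of_F _ _ hs))).trans ih

theorem acc_eq {x : ℤ} {e : St × ℤ} (h : Reach (s0, x) e) (he : F e = none) : acc e = ev x := by
  obtain ⟨e', h1, h2, h3⟩ := run x
  rw [h.unique h1 he h2]
  unfold acc ev
  by_cases hx : Ev x
  · rw [if_pos hx, if_pos (h3.mpr hx)]
  · rw [if_neg hx, if_neg (fun h => hx (h3.mp h))]

theorem fw_excursion (x : ℤ) (σ : Bool) (b : ZMod 2) :
    Fw (Sum.inl (s0, true, σ, b), x) (nxt σ (b + ev x) x) := by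
  obtain ⟨e, h1, h2, _⟩ := run x
  have s1 := fw_forward h1 σ b
  have s2 := G_fwd_none σ b (q := e.1) (x := e.2) h2
  have s3 := fw_backward h1 σ (b + ev x)
  rw [show acc (e.1, e.2) = ev x from acc_eq h1 h2] at s2
  exact s1.trans ((Fw.step s2).trans (s3.trans (Fw.step (G_exit _ _ _))))

/-- the point of the orbit on the main track above `n` -/
def base (n : ℤ) : Q × ℤ := (Sum.inl (s0, true, true, par n), n)

theorem fw_base_nxt (n : ℤ) : Fw (base n) (nxt false (par (n + 1)) (-n)) := by
  rw [par_succ]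
  exact (fw_excursion n true (par n)).trans (fw_excursion (-n) false (par n + ev n))

theorem fw_chain_up (n : ℤ) (i : ℕ) (hi : i < 1000) :
    Fw (Sum.inr 0, n) (Sum.inr ⟨i, hi⟩, n) := by
  induction i with
  | zero => exact Fw.refl _
  | succ i ih =>
    refine (ih (by omega)).trans (Fw.step ?_)
    rw [G_chain _ (by intro h; have := congrArg Fin.val h; simp at this; omega)]
    congr 2
    apply Fin.ext
    rw [Fin.val_add]; simp; omega

theorem fw_chain_end (n : ℤ) (d : ℕ) (i : Fin 1000) (hi : i.val + d = 999) :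
    Fw (Sum.inr i, n) (Sum.inl (s0, true, true, 0), n) := by
  induction d generalizing i with
  | zero =>
    have : i = 999 := Fin.ext (by simpa using hi)
    subst this; exact Fw.step (G_last n)
  | succ d ih =>
    refine (Fw.step (G_chain n (i := i) ?_)).trans (ih _ ?_)
    · intro h; have := congrArg Fin.val h; simp at this; omega
    · rw [Fin.val_add]; simp; omega

theorem fw_chain_base (n : ℤ) (hn : par n = 0) (i : Fin 1000) : Fw (Sum.inr i, n) (base n) := by
  unfold base; rw [hn]
  exact fw_chain_end n (999 - i.val) i (by omega)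

theorem fw_base_chain (n : ℤ) (hn : par (n + 1) = 0) (i : Fin 1000) :
    Fw (base n) (Sum.inr i, n + 1) := by
  have h := fw_base_nxt n
  simp only [nxt, if_pos hn] at h
  rw [show 1 - -n = n + 1 by ring] at h
  exact h.trans (fw_chain_up _ i.val i.isLt)

theorem fw_base_succ (n : ℤ) : Fw (base n) (base (n + 1)) := by
  by_cases hn : par (n + 1) = 0
  · exact (fw_base_chain n hn 0).trans (fw_chain_base _ hn 0)
  · have h := fw_base_nxt n
    simp only [nxt, if_neg hn] at h
    rw [show 1 - -n = n + 1 by ring] at h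
    exact h

theorem fw_base_le (n : ℤ) (d : ℕ) : Fw (base n) (base (n + d)) := by
  induction d with
  | zero => simpa using Fw.refl _
  | succ d ih =>
    refine ih.trans ?_
    rw [show n + ((d + 1 : ℕ) : ℤ) = n + d + 1 by push_cast; ring]
    exact fw_base_succ _

theorem chain_mem (n : ℤ) (hn : par n = 0) (i : Fin 1000) :
    Fw (base 0) (Sum.inr i, n) ∨ Fw (Sum.inr i, n) (base 0) := by
  by_cases h : 1 ≤ n
  · left
    have h1 := fw_base_le 0 (n - 1).toNat
    rw [show (0 : ℤ) + ((n - 1).toNat : ℤ) = n - 1 by omega] at h1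
    have h2 := fw_base_chain (n - 1) (by simpa using hn) i
    rw [show n - 1 + 1 = n by ring] at h2
    exact h1.trans h2
  · right
    have h1 := fw_base_le n (-n).toNat
    rw [show n + ((-n).toNat : ℤ) = 0 by omega] at h1
    exact (fw_chain_base n hn i).trans h1

/-- the track bit at the start of an excursion -/
noncomputable def J : Bool → ℤ → ZMod 2
  | true, x => par x
  | false, x => par (-x) + ev (-x)

/-- two forward invariant sets, for `t = 0` and `t = 1` -/
def Inv (t : ZMod 2) : Q × ℤ → Prop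
  | (Sum.inl (q, true, σ, b), x) => ∃ x0, Reach (s0, x0) (q, x) ∧ b = J σ x0 + t
  | (Sum.inl (q, false, σ, b), x) => ∃ x0, Reach (s0, x0) (q, x) ∧ b = J σ x0 + ev x0 + t
  | (Sum.inr _, x) => par x + t = 0

theorem reach_of_B_none {a e : St × ℤ} (h : Reach a e) (he : B e = none) : a = e := by
  rcases Relation.ReflTransGen.cases_tail h with h | ⟨c, _, hc⟩
  · exact h.symm
  · rw [B_of_F _ _ hc] at he; cases he

theorem Inv.step (t : ZMod 2) (p : Q × ℤ) (h : Inv t p) : Inv t (G p) := by
  obtain ⟨(⟨q, d, σ, b⟩ | i), x⟩ := p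
  · cases d
    · obtain ⟨x0, hr, hb⟩ := h
      rcases hB : B (q, x) with _ | e
      · have := reach_of_B_none hr hB
        simp only [Prod.mk.injEq] at this
        obtain ⟨rfl, rfl⟩ := this
        rw [G_exit]
        cases σ
        · have hp : par (1 - x0) = par (-x0) + ev (-x0) + ev x0 := by
            rw [show 1 - x0 = -x0 + 1 by ring, par_succ, neg_neg]
          by_cases hb0 : b = 0
          · simp only [nxt, if_pos hb0, Inv]
            rw [hp, ← hb0, hb]; rfl
          · simp only [nxt, if_neg hb0, Inv]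
            exact ⟨1 - x0, Reach.refl _, by rw [hb]; simp only [J]; rw [hp]⟩
        · simp only [nxt, Inv]
          exact ⟨-x0, Reach.refl _, by rw [hb]; simp only [J, neg_neg]⟩
      · rw [G_bwd_some _ _ hB]
        refine ⟨x0, ?_, hb⟩
        rcases Relation.ReflTransGen.cases_tail hr with h | ⟨c, hc1, hc2⟩
        · rw [h] at hB; simp only [B] at hB; cases hB
        · rw [B_of_F _ _ hc2] at hB; cases hB; exact hc1
    · obtain ⟨x0, hr, hb⟩ := h
      rcases hF : F (q, x) with _ | e
      · rw [G_fwd_none _ _ hF]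
        refine ⟨x0, hr, ?_⟩
        rw [acc_eq hr hF, hb]; ring
      · rw [G_fwd_some _ _ hF]
        exact ⟨x0, hr.trans (Reach.step hF), hb⟩
  · by_cases hi : i = 999
    · subst hi; rw [G_last]
      exact ⟨x, Reach.refl _, Eq.symm h⟩
    · rw [G_chain _ hi]; exact h

theorem Inv.fw {t : ZMod 2} {p p' : Q × ℤ} (h : Inv t p) (hf : Fw p p') : Inv t p' := by
  obtain ⟨i, rfl⟩ := hf
  induction i with
  | zero => exact h
  | succ i ih => rw [Function.iterate_succ_apply']; exact Inv.step t _ ih

theorem chain_mem_iff (n : ℤ) (i : Fin 1000) :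
    (Fw (base 0) (Sum.inr i, n) ∨ Fw (Sum.inr i, n) (base 0)) ↔ par n = 0 := by
  refine ⟨?_, fun h => chain_mem n h i⟩
  rintro (h | h)
  · have h0 : Inv 0 (base 0) := ⟨0, Reach.refl _, by simp [J]⟩
    have := h0.fw h
    simpa [Inv] using this
  · have h0 : Inv (-par n) (Sum.inr i, n) := by
      show par n + -par n = 0
      ring
    obtain ⟨x0, hr, hb⟩ := h0.fw h
    have := reach_of_B_none hr rfl
    simp only [Prod.mk.injEq, true_and] at this
    subst this
    simpa [J] using hb

end Pool.Agent.P.MP_317f4c_nt
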