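import Pool.Agent.P.MP_317f4c_nt.Run

/-!
The permutation `G` of `Q × ℤ`: run the machine forward, turn around, run it backward, move on.
-/

set_option autoImplicit false

namespace Pool.Agent.P.MP_317f4c_nt

open St

/-- global states: control state, direction, sign, track; or a position in the delay chain -/
abbrev Q : Type := (St × Bool × Bool × ZMod 2) ⊕ Fin 1000

/-- the acceptance bit -/
def acc (e : St × ℤ) : ZMod 2 := if Acc e then 1 else 0

/-- what happens after an excursion -/
def nxt : Bool → ZMod 2 → ℤ → Q × ℤ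
  | true, b, x => (Sum.inl (s0, true, false, b), -x)
  | false, b, x => if b = 0 then (Sum.inr 0, 1 - x) else (Sum.inl (s0, true, true, b), 1 - x)

/-- what happened before an excursion -/
def prv : Bool → ZMod 2 → ℤ → Q × ℤ
  | false, b, x => (Sum.inl (s0, false, true, b), -x)
  | true, b, x => if b = 0 then (Sum.inr 999, x) else (Sum.inl (s0, false, false, b), 1 - x)

/-- the permutation -/
def G : Q × ℤ → Q × ℤ
  | (Sum.inl (q, true, σ, b), x) =>
      match F (q, x) with
      | some e => (Sum.inl (e.1, true, σ, b), e.2)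
      | none => (Sum.inl (q, false, σ, b + acc (q, x)), x)
  | (Sum.inl (q, false, σ, b), x) =>
      match B (q, x) with
      | some e => (Sum.inl (e.1, false, σ, b), e.2)
      | none => if q = s0 then nxt σ b x else (Sum.inl (q, true, σ, b), x)
  | (Sum.inr i, x) =>
      if i = 999 then (Sum.inl (s0, true, true, 0), x) else (Sum.inr (i + 1), x)

/-- its inverse -/
def H : Q × ℤ → Q × ℤ
  | (Sum.inl (q, false, σ, b), x) =>
      match F (q, x) with
      | some e => (Sum.inl (e.1, false, σ, b), e.2)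
      | none => (Sum.inl (q, true, σ, b - acc (q, x)), x)
  | (Sum.inl (q, true, σ, b), x) =>
      match B (q, x) with
      | some e => (Sum.inl (e.1, true, σ, b), e.2)
      | none => if q = s0 then prv σ b x else (Sum.inl (q, false, σ, b), x)
  | (Sum.inr i, x) =>
      if i = 0 then (Sum.inl (s0, false, false, 0), 1 - x) else (Sum.inr (i - 1), x)

theorem G_fwd_some {q : St} {x : ℤ} {e : St × ℤ} (σ : Bool) (b : ZMod 2) (h : F (q, x) = some e) :
    G (Sum.inl (q, true, σ, b), x) = (Sum.inl (e.1, true, σ, b), e.2) := by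
  simp only [G, h]

theorem G_fwd_none {q : St} {x : ℤ} (σ : Bool) (b : ZMod 2) (h : F (q, x) = none) :
    G (Sum.inl (q, true, σ, b), x) = (Sum.inl (q, false, σ, b + acc (q, x)), x) := by
  simp only [G, h]

theorem G_bwd_some {q : St} {x : ℤ} {e : St × ℤ} (σ : Bool) (b : ZMod 2) (h : B (q, x) = some e) :
    G (Sum.inl (q, false, σ, b), x) = (Sum.inl (e.1, false, σ, b), e.2) := by
  simp only [G, h]

theorem G_bwd_none {q : St} {x : ℤ} (σ : Bool) (b : ZMod 2) (h : B (q, x) = none) (hq : q ≠ s0) :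
    G (Sum.inl (q, false, σ, b), x) = (Sum.inl (q, true, σ, b), x) := by
  simp only [G, h, if_neg hq]

theorem G_exit (x : ℤ) (σ : Bool) (b : ZMod 2) :
    G (Sum.inl (s0, false, σ, b), x) = nxt σ b x := by
  simp only [G, B, if_true]

theorem G_last (x : ℤ) : G (Sum.inr 999, x) = (Sum.inl (s0, true, true, 0), x) := by
  simp only [G, if_true]

theorem G_chain (x : ℤ) {i : Fin 1000} (h : i ≠ 999) : G (Sum.inr i, x) = (Sum.inr (i + 1), x) := by
  simp only [G, if_neg h]

theorem H_bwd_some {q : St} {x : ℤ} {e : St × ℤ} (σ : Bool) (b : ZMod 2) (h : F (q, x) = some e) :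
    H (Sum.inl (q, false, σ, b), x) = (Sum.inl (e.1, false, σ, b), e.2) := by
  simp only [H, h]

theorem H_bwd_none {q : St} {x : ℤ} (σ : Bool) (b : ZMod 2) (h : F (q, x) = none) :
    H (Sum.inl (q, false, σ, b), x) = (Sum.inl (q, true, σ, b - acc (q, x)), x) := by
  simp only [H, h]

theorem H_fwd_some {q : St} {x : ℤ} {e : St × ℤ} (σ : Bool) (b : ZMod 2) (h : B (q, x) = some e) :
    H (Sum.inl (q, true, σ, b), x) = (Sum.inl (e.1, true, σ, b), e.2) := by
  simp only [H, h]

theorem H_fwd_none {q : St} {x : ℤ} (σ : Bool) (b : ZMod 2) (h : B (q, x) = none) (hq : q ≠ s0) :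
    H (Sum.inl (q, true, σ, b), x) = (Sum.inl (q, false, σ, b), x) := by
  simp only [H, h, if_neg hq]

theorem H_entry (x : ℤ) (σ : Bool) (b : ZMod 2) :
    H (Sum.inl (s0, true, σ, b), x) = prv σ b x := by
  simp only [H, B, if_true]

theorem H_first (x : ℤ) : H (Sum.inr 0, x) = (Sum.inl (s0, false, false, 0), 1 - x) := by
  simp only [H, if_true]

theorem H_chain (x : ℤ) {i : Fin 1000} (h : i ≠ 0) : H (Sum.inr i, x) = (Sum.inr (i - 1), x) := by
  simp only [H, if_neg h]

theorem HG (p : Q × ℤ) : H (G p) = p := by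
  obtain ⟨(⟨q, d, σ, b⟩ | i), x⟩ := p
  · cases d
    · rcases hB : B (q, x) with _ | e
      · by_cases hq : q = s0
        · subst hq
          rw [G_exit]
          cases σ
          · by_cases hb : b = 0
            · subst hb; simp only [nxt, if_true]; rw [H_first]; simp
            · simp only [nxt, if_neg hb]; rw [H_entry]; simp only [prv, if_neg hb]; simp
          · simp only [nxt]; rw [H_entry]; simp only [prv]; simp
        · rw [G_bwd_none _ _ hB hq, H_fwd_none _ _ hB hq]
      · rw [G_bwd_some _ _ hB, H_bwd_some _ _ (F_of_B _ _ hB)]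
    · rcases hF : F (q, x) with _ | e
      · rw [G_fwd_none _ _ hF, H_bwd_none _ _ hF]; simp
      · rw [G_fwd_some _ _ hF, H_fwd_some _ _ (B_of_F _ _ hF)]
  · by_cases hi : i = 999
    · subst hi; rw [G_last, H_entry]; simp only [prv, if_true]
    · rw [G_chain _ hi, H_chain]
      · simp
      · intro h; apply hi
        have : i = 0 - 1 := by rw [← h]; simp
        rw [this]; rfl

theorem GH (p : Q × ℤ) : G (H p) = p := by
  obtain ⟨(⟨q, d, σ, b⟩ | i), x⟩ := p
  · cases d
    · rcases hF : F (q, x) with _ | e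
      · rw [H_bwd_none _ _ hF, G_fwd_none _ _ hF]; simp
      · rw [H_bwd_some _ _ hF, G_bwd_some _ _ (B_of_F _ _ hF)]
    · rcases hB : B (q, x) with _ | e
      · by_cases hq : q = s0
        · subst hq
          rw [H_entry]
          cases σ
          · simp only [prv]; rw [G_exit]; simp only [nxt]; simp
          · by_cases hb : b = 0
            · subst hb; simp only [prv, if_true]; rw [G_last]
            · simp only [prv, if_neg hb]; rw [G_exit]; simp only [nxt, if_neg hb]; simp
        · rw [H_fwd_none _ _ hB hq, G_bwd_none _ _ hB hq]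
      · rw [H_fwd_some _ _ hB, G_fwd_some _ _ (F_of_B _ _ hB)]
  · by_cases hi : i = 0
    · subst hi; rw [H_first, G_exit]; simp only [nxt, if_true]; simp
    · rw [H_chain _ hi, G_chain]
      · simp
      · intro h; apply hi
        have : i = 999 + 1 := by rw [← h]; simp
        rw [this]; rfl

theorem G_bijective : Function.Bijective G :=
  Function.bijective_iff_has_inverse.mpr ⟨H, HG, GH⟩

/-- locally affine optional maps -/
def LAO (f : ℤ → Option (St × ℤ)) : Prop :=
  ∀ r : ℤ, (∀ n : ℤ, n % 336 = r % 336 → f n = none) ∨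
    ∃ (q : St) (a c : ℚ), ∀ n : ℤ, n % 336 = r % 336 →
      ∃ n' : ℤ, f n = some (q, n') ∧ (n' : ℚ) = a * n + c

theorem cast_div' (x d : ℤ) (h : x % d = 0) : ((x / d : ℤ) : ℚ) = (1 / (d : ℚ)) * x := by
  rw [Int.cast_div_charZero (Int.dvd_of_emod_eq_zero h)]; ring

theorem LAO.ite {p : ℤ → Prop} [DecidablePred p] {f g : ℤ → Option (St × ℤ)}
    (hp : ∀ n r : ℤ, n % 336 = r % 336 → p r → p n) (hf : (∀ r, p r → (∀ n : ℤ, n % 336 = r % 336 → f n = none) ∨
    ∃ (q : St) (a c : ℚ), ∀ n : ℤ, n % 336 = r % 336 →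
      ∃ n' : ℤ, f n = some (q, n') ∧ (n' : ℚ) = a * n + c)) (hg : LAO g) :
    LAO (fun n => if p n then f n else g n) := by
  intro r
  by_cases hr : p r
  · rcases hf r hr with h | ⟨q, a, c, h⟩
    · left; intro n hn; simp only [if_pos (hp n r hn hr)]; exact h n hn
    · right; refine ⟨q, a, c, fun n hn => ?_⟩; simp only [if_pos (hp n r hn hr)]; exact h n hn
  · have hr' : ∀ n : ℤ, n % 336 = r % 336 → ¬ p n := fun n hn hpn => hr (hp r n hn.symm hpn)
    rcases hg r with h | ⟨q, a, c, h⟩
    · left; intro n hn; simp only [if_neg (hr' n hn)]; exact h n hn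
    · right; refine ⟨q, a, c, fun n hn => ?_⟩; simp only [if_neg (hr' n hn)]; exact h n hn

theorem LAO.none : LAO (fun _ => none) := fun _ => Or.inl (fun _ _ => rfl)

theorem LAO.iteDiv {p : ℤ → Prop} [DecidablePred p] {g : ℤ → Option (St × ℤ)} (q : St)
    (f : ℤ → ℤ) (u d c : ℤ) (hp : ∀ n r : ℤ, n % 336 = r % 336 → p r → p n)
    (hd : ∀ n, p n → n % d = 0) (hf : ∀ n, f n = u * (n / d) + c) (hg : LAO g) :
    LAO (fun n => if p n then some (q, f n) else g n) := by
  refine LAO.ite hp (fun r hr => Or.inr ⟨q, u * (1 / d), c, fun n hn => ⟨f n, rfl, ?_⟩⟩) hg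
  rw [hf]; push_cast; rw [cast_div' n d (hd n (hp n r hn hr))]; ring

theorem LAO_F (q : St) : LAO (fun n => F (q, n)) := by
  cases q <;> simp only [F]
  · exact LAO.iteDiv _ _ 8 1 0 (by omega) (by omega) (by omega) LAO.none
  · exact LAO.iteDiv _ _ 7 2 0 (by omega) (by omega) (by omega)
      (LAO.iteDiv _ _ 1 3 0 (by omega) (by omega) (by omega)
        (LAO.iteDiv _ _ 1 1 (-1) (by omega) (by omega) (by omega) LAO.none))
  · exact LAO.iteDiv _ _ 8 7 0 (by omega) (by omega) (by omega)
      (LAO.iteDiv _ _ 1 1 0 (by omega) (by omega) (by omega) LAO.none)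
  · exact LAO.iteDiv _ _ 7 3 0 (by omega) (by omega) (by omega)
      (LAO.iteDiv _ _ 1 1 0 (by omega) (by omega) (by omega) LAO.none)
  · exact LAO.iteDiv _ _ 3 7 0 (by omega) (by omega) (by omega)
      (LAO.iteDiv _ _ 1 1 1 (by omega) (by omega) (by omega) LAO.none)
  · exact LAO.iteDiv _ _ 4 7 0 (by omega) (by omega) (by omega)
      (LAO.iteDiv _ _ 1 1 (-1) (by omega) (by omega) (by omega) LAO.none)
  · exact LAO.iteDiv _ _ 4 3 0 (by omega) (by omega) (by omega) LAO.none

theorem LAO_B (q : St) : LAO (fun n => B (q, n)) := by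
  cases q <;> simp only [B]
  · exact LAO.none
  · exact LAO.iteDiv _ _ 2 7 0 (by omega) (by omega) (by omega)
      (LAO.iteDiv _ _ 1 8 0 (by omega) (by omega) (by omega)
        (LAO.iteDiv _ _ 1 1 0 (by omega) (by omega) (by omega) LAO.none))
  · exact LAO.iteDiv _ _ 7 8 0 (by omega) (by omega) (by omega)
      (LAO.iteDiv _ _ 3 1 0 (by omega) (by omega) (by omega) LAO.none)
  · exact LAO.iteDiv _ _ 3 7 0 (by omega) (by omega) (by omega)
      (LAO.iteDiv _ _ 1 1 1 (by omega) (by omega) (by omega) LAO.none)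
  · exact LAO.iteDiv _ _ 7 3 0 (by omega) (by omega) (by omega)
      (LAO.iteDiv _ _ 1 1 0 (by omega) (by omega) (by omega) LAO.none)
  · exact LAO.iteDiv _ _ 7 4 0 (by omega) (by omega) (by omega)
      (LAO.iteDiv _ _ 1 1 (-1) (by omega) (by omega) (by omega) LAO.none)
  · exact LAO.iteDiv _ _ 3 4 0 (by omega) (by omega) (by omega)
      (LAO.iteDiv _ _ 1 1 1 (by omega) (by omega) (by omega) LAO.none)

theorem acc_congr (q : St) {n r : ℤ} (h : n % 336 = r % 336) : acc (q, n) = acc (q, r) := by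
  unfold acc Acc
  have : n % 3 = r % 3 := by omega
  simp only [this]

theorem G_affine (s : Q) (r : ℤ) : ∃ (s' : Q) (a c : ℚ), ∀ n : ℤ, n % 336 = r % 336 →
    (G (s, n)).1 = s' ∧ (((G (s, n)).2 : ℤ) : ℚ) = a * n + c := by
  rcases s with ⟨q, d, σ, b⟩ | i
  · cases d
    · rcases LAO_B q r with h | ⟨q', a, c, h⟩
      · by_cases hq : q = s0
        · subst hq
          cases σ
          · by_cases hb : b = 0
            · refine ⟨Sum.inr 0, -1, 1, fun n _ => ?_⟩
              rw [G_exit]; simp only [nxt, if_pos hb]; push_cast; exact ⟨trivial, by ring⟩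
            · refine ⟨Sum.inl (s0, true, true, b), -1, 1, fun n _ => ?_⟩
              rw [G_exit]; simp only [nxt, if_neg hb]; push_cast; exact ⟨trivial, by ring⟩
          · refine ⟨Sum.inl (s0, true, false, b), -1, 0, fun n _ => ?_⟩
            rw [G_exit]; simp only [nxt]; push_cast; exact ⟨trivial, by ring⟩
        · refine ⟨Sum.inl (q, true, σ, b), 1, 0, fun n hn => ?_⟩
          rw [G_bwd_none _ _ (h n hn) hq]; exact ⟨rfl, by ring⟩
      · refine ⟨Sum.inl (q', false, σ, b), a, c, fun n hn => ?_⟩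
        obtain ⟨n', h1, h2⟩ := h n hn
        rw [G_bwd_some _ _ h1]; exact ⟨rfl, h2⟩
    · rcases LAO_F q r with h | ⟨q', a, c, h⟩
      · refine ⟨Sum.inl (q, false, σ, b + acc (q, r)), 1, 0, fun n hn => ?_⟩
        rw [G_fwd_none _ _ (h n hn), acc_congr q hn]; exact ⟨rfl, by ring⟩
      · refine ⟨Sum.inl (q', true, σ, b), a, c, fun n hn => ?_⟩
        obtain ⟨n', h1, h2⟩ := h n hn
        rw [G_fwd_some _ _ h1]; exact ⟨rfl, h2⟩
  · by_cases hi : i = 999
    · subst hi
      refine ⟨Sum.inl (s0, true, true, 0), 1, 0, fun n _ => ?_⟩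
      rw [G_last]; exact ⟨rfl, by ring⟩
    · refine ⟨Sum.inr (i + 1), 1, 0, fun n _ => ?_⟩
      rw [G_chain _ hi]; exact ⟨rfl, by ring⟩

end Pool.Agent.P.MP_317f4c_nt
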