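import Pool.Agent.P.MP_317f4c_nt.Final

/-!
Conjugating by a sign change makes all slopes positive; one-sided density estimates.
-/

set_option autoImplicit false
set_option maxRecDepth 8000

namespace Pool.Agent.P.MP_317f4c_nt

open St

/-- locally affine optional maps with positive slopes -/
def LAP (f : ℤ → Option (St × ℤ)) : Prop :=
  ∀ r : ℤ, (∀ n : ℤ, n % 336 = r % 336 → f n = none) ∨
    ∃ (q : St) (a c : ℚ), 0 < a ∧ ∀ n : ℤ, n % 336 = r % 336 →
      ∃ n' : ℤ, f n = some (q, n') ∧ (n' : ℚ) = a * n + c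

theorem LAP.none : LAP (fun _ => none) := fun _ => Or.inl (fun _ _ => rfl)

theorem LAP.iteDiv {p : ℤ → Prop} [DecidablePred p] {g : ℤ → Option (St × ℤ)} (q : St)
    (f : ℤ → ℤ) (u d c : ℤ) (hu : 0 < u) (hd0 : 0 < d)
    (hp : ∀ n r : ℤ, n % 336 = r % 336 → p r → p n)
    (hd : ∀ n, p n → n % d = 0) (hf : ∀ n, f n = u * (n / d) + c) (hg : LAP g) :
    LAP (fun n => if p n then some (q, f n) else g n) := by
  intro r
  by_cases hr : p r
  · right
    refine ⟨q, u * (1 / d), c, by positivity, fun n hn => ⟨f n, if_pos (hp n r hn hr), ?_⟩⟩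
    rw [hf]; push_cast; rw [cast_div' n d (hd n (hp n r hn hr))]; ring
  · have hr' : ∀ n : ℤ, n % 336 = r % 336 → ¬ p n := fun n hn hpn => hr (hp r n hn.symm hpn)
    rcases hg r with h | ⟨q, a, c, ha, h⟩
    · left; intro n hn; simp only [if_neg (hr' n hn)]; exact h n hn
    · right; refine ⟨q, a, c, ha, fun n hn => ?_⟩; simp only [if_neg (hr' n hn)]; exact h n hn

theorem LAP_F (q : St) : LAP (fun n => F (q, n)) := by
  cases q <;> simp only [F]
  · exact LAP.iteDiv _ _ 8 1 0 (by omega) (by omega) (by omega) (by omega) (by omega) LAP.none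
  · exact LAP.iteDiv _ _ 7 2 0 (by omega) (by omega) (by omega) (by omega) (by omega)
      (LAP.iteDiv _ _ 1 3 0 (by omega) (by omega) (by omega) (by omega) (by omega)
        (LAP.iteDiv _ _ 1 1 (-1) (by omega) (by omega) (by omega) (by omega) (by omega) LAP.none))
  · exact LAP.iteDiv _ _ 8 7 0 (by omega) (by omega) (by omega) (by omega) (by omega)
      (LAP.iteDiv _ _ 1 1 0 (by omega) (by omega) (by omega) (by omega) (by omega) LAP.none)
  · exact LAP.iteDiv _ _ 7 3 0 (by omega) (by omega) (by omega) (by omega) (by omega)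
      (LAP.iteDiv _ _ 1 1 0 (by omega) (by omega) (by omega) (by omega) (by omega) LAP.none)
  · exact LAP.iteDiv _ _ 3 7 0 (by omega) (by omega) (by omega) (by omega) (by omega)
      (LAP.iteDiv _ _ 1 1 1 (by omega) (by omega) (by omega) (by omega) (by omega) LAP.none)
  · exact LAP.iteDiv _ _ 4 7 0 (by omega) (by omega) (by omega) (by omega) (by omega)
      (LAP.iteDiv _ _ 1 1 (-1) (by omega) (by omega) (by omega) (by omega) (by omega) LAP.none)
  · exact LAP.iteDiv _ _ 4 3 0 (by omega) (by omega) (by omega) (by omega) (by omega) LAP.none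

theorem LAP_B (q : St) : LAP (fun n => B (q, n)) := by
  cases q <;> simp only [B]
  · exact LAP.none
  · exact LAP.iteDiv _ _ 2 7 0 (by omega) (by omega) (by omega) (by omega) (by omega)
      (LAP.iteDiv _ _ 1 8 0 (by omega) (by omega) (by omega) (by omega) (by omega)
        (LAP.iteDiv _ _ 1 1 0 (by omega) (by omega) (by omega) (by omega) (by omega) LAP.none))
  · exact LAP.iteDiv _ _ 7 8 0 (by omega) (by omega) (by omega) (by omega) (by omega)
      (LAP.iteDiv _ _ 3 1 0 (by omega) (by omega) (by omega) (by omega) (by omega) LAP.none)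
  · exact LAP.iteDiv _ _ 3 7 0 (by omega) (by omega) (by omega) (by omega) (by omega)
      (LAP.iteDiv _ _ 1 1 1 (by omega) (by omega) (by omega) (by omega) (by omega) LAP.none)
  · exact LAP.iteDiv _ _ 7 3 0 (by omega) (by omega) (by omega) (by omega) (by omega)
      (LAP.iteDiv _ _ 1 1 0 (by omega) (by omega) (by omega) (by omega) (by omega) LAP.none)
  · exact LAP.iteDiv _ _ 7 4 0 (by omega) (by omega) (by omega) (by omega) (by omega)
      (LAP.iteDiv _ _ 1 1 (-1) (by omega) (by omega) (by omega) (by omega) (by omega) LAP.none)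
  · exact LAP.iteDiv _ _ 3 4 0 (by omega) (by omega) (by omega) (by omega) (by omega)
      (LAP.iteDiv _ _ 1 1 1 (by omega) (by omega) (by omega) (by omega) (by omega) LAP.none)

/-- the sign attached to a state -/
def sgn : Q → ℤ
  | Sum.inl (_, _, σ, _) => if σ then 1 else -1
  | Sum.inr _ => 1

theorem sgn_cases (s : Q) : sgn s = 1 ∨ sgn s = -1 := by
  rcases s with ⟨q, d, σ, b⟩ | i
  · cases σ <;> simp [sgn]
  · simp [sgn]

theorem sgn_sq (s : Q) : sgn s * sgn s = 1 := by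
  rcases sgn_cases s with h | h <;> simp [h]

theorem G_affine_sgn (s : Q) (r : ℤ) : ∃ (s' : Q) (a c : ℚ), 0 < a * sgn s * sgn s' ∧
    ∀ n : ℤ, n % 336 = r % 336 →
      (G (s, n)).1 = s' ∧ (((G (s, n)).2 : ℤ) : ℚ) = a * n + c := by
  have hs : ∀ (q q' : St) (d d' σ : Bool) (b b' : ZMod 2) (a : ℚ), 0 < a →
      0 < a * sgn (Sum.inl (q, d, σ, b)) * sgn (Sum.inl (q', d', σ, b')) := by
    intro q q' d d' σ b b' a ha
    cases σ <;> simpa [sgn] using ha
  rcases s with ⟨q, d, σ, b⟩ | i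
  · cases d
    · rcases LAP_B q r with h | ⟨q', a, c, ha, h⟩
      · by_cases hq : q = s0
        · subst hq
          cases σ
          · by_cases hb : b = 0
            · refine ⟨Sum.inr 0, -1, 1, by simp [sgn], fun n _ => ?_⟩
              rw [G_exit]; simp only [nxt, if_pos hb]; push_cast; exact ⟨trivial, by ring⟩
            · refine ⟨Sum.inl (s0, true, true, b), -1, 1, by simp [sgn], fun n _ => ?_⟩
              rw [G_exit]; simp only [nxt, if_neg hb]; push_cast; exact ⟨trivial, by ring⟩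
          · refine ⟨Sum.inl (s0, true, false, b), -1, 0, by simp [sgn], fun n _ => ?_⟩
            rw [G_exit]; simp only [nxt]; push_cast; exact ⟨trivial, by ring⟩
        · refine ⟨Sum.inl (q, true, σ, b), 1, 0, hs _ _ _ _ _ _ _ _ one_pos, fun n hn => ?_⟩
          rw [G_bwd_none _ _ (h n hn) hq]; exact ⟨rfl, by ring⟩
      · refine ⟨Sum.inl (q', false, σ, b), a, c, hs _ _ _ _ _ _ _ _ ha, fun n hn => ?_⟩
        obtain ⟨n', h1, h2⟩ := h n hn
        rw [G_bwd_some _ _ h1]; exact ⟨rfl, h2⟩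
    · rcases LAP_F q r with h | ⟨q', a, c, ha, h⟩
      · refine ⟨Sum.inl (q, false, σ, b + acc (q, r)), 1, 0, hs _ _ _ _ _ _ _ _ one_pos,
          fun n hn => ?_⟩
        rw [G_fwd_none _ _ (h n hn), acc_congr q hn]; exact ⟨rfl, by ring⟩
      · refine ⟨Sum.inl (q', true, σ, b), a, c, hs _ _ _ _ _ _ _ _ ha, fun n hn => ?_⟩
        obtain ⟨n', h1, h2⟩ := h n hn
        rw [G_fwd_some _ _ h1]; exact ⟨rfl, h2⟩
  · by_cases hi : i = 999
    · subst hi
      refine ⟨Sum.inl (s0, true, true, 0), 1, 0, by simp [sgn], fun n _ => ?_⟩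
      rw [G_last]; exact ⟨rfl, by ring⟩
    · refine ⟨Sum.inr (i + 1), 1, 0, by simp [sgn], fun n _ => ?_⟩
      rw [G_chain _ hi]; exact ⟨rfl, by ring⟩

/-- the sign change -/
def flip : Q × ℤ ≃ Q × ℤ where
  toFun p := (p.1, sgn p.1 * p.2)
  invFun p := (p.1, sgn p.1 * p.2)
  left_inv p := by simp only [← mul_assoc, sgn_sq, one_mul]
  right_inv p := by simp only [← mul_assoc, sgn_sq, one_mul]

/-- the coding with signs -/
noncomputable def enc2 : Q × ℤ ≃ ℤ := flip.trans enc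

theorem enc2_apply (s : Q) (n : ℤ) : enc2 (s, n) = 1056 * (sgn s * n) + (idx s).val := rfl

/-- the permutation with positive slopes -/
noncomputable def g2 : Equiv.Perm ℤ :=
  (enc2.symm.trans (Equiv.ofBijective G G_bijective)).trans enc2

theorem g2_apply (p : Q × ℤ) : g2 (enc2 p) = enc2 (G p) := by
  simp [g2]

theorem g2_pow (i : ℕ) (p : Q × ℤ) : (g2 ^ i) (enc2 p) = enc2 (G^[i] p) := by
  induction i with
  | zero => rfl
  | succ i ih => rw [pow_succ', Equiv.Perm.mul_apply, ih, g2_apply, Function.iterate_succ_apply']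

theorem g2_affine : ∃ a b : ℕ → ℚ, (∀ i, 0 < a i) ∧ ∀ n : ℤ,
    (g2 n : ℚ) = a (n % ((354816 : ℕ) : ℤ)).toNat * (n : ℚ) +
      b (n % ((354816 : ℕ) : ℤ)).toNat := by
  have key : ∀ r : ℕ, ∃ a b : ℚ, 0 < a ∧ ∀ n : ℤ, (n % ((354816 : ℕ) : ℤ)).toNat = r →
      (g2 n : ℚ) = a * (n : ℚ) + b := by
    intro r
    obtain ⟨⟨s, m⟩, hr⟩ := enc2.surjective (r : ℤ)
    obtain ⟨s', a, c, ha, h⟩ := G_affine_sgn s m
    refine ⟨a * sgn s * sgn s', 1056 * (sgn s' * c) + ((idx s').val : ℚ) -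
      a * sgn s * sgn s' * ((idx s).val : ℚ), ha, fun n hn => ?_⟩
    obtain ⟨⟨s1, m1⟩, rfl⟩ := enc2.surjective n
    rw [enc2_apply] at hr hn
    have h1 := (idx s).isLt
    have h2 := (idx s1).isLt
    have hs : s1 = s := idx.injective (Fin.ext (by omega))
    subst hs
    obtain ⟨e1, e2⟩ := h m1 (by
      rcases sgn_cases s1 with h3 | h3 <;> rw [h3] at hr hn <;> omega)
    have e3 : g2 (enc2 (s1, m1)) = enc2 (s', (G (s1, m1)).2) := by
      rw [g2_apply, ← e1]
    rw [e3, enc2_apply, enc2_apply]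
    push_cast
    rw [e2]
    have h4 : ((sgn s1 : ℤ) : ℚ) * sgn s1 = 1 := by exact_mod_cast sgn_sq s1
    linear_combination (-1056 * a * (sgn s' : ℚ) * m1) * h4
  choose a b ha hab using key
  exact ⟨a, b, ha, fun n => hab _ n rfl⟩

/-- the orbit -/
def O2 : Set ℤ := {k | ∃ j : ℤ, (g2 ^ j) (enc2 (base 0)) = k}

theorem mem_O2 (p : Q × ℤ) : enc2 p ∈ O2 ↔ (Fw (base 0) p ∨ Fw p (base 0)) := by
  constructor
  · rintro ⟨j, hj⟩
    obtain ⟨i, rfl | rfl⟩ := Int.eq_nat_or_neg j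
    · left
      rw [zpow_natCast, g2_pow] at hj
      exact ⟨i, enc2.injective hj⟩
    · right
      rw [zpow_neg, zpow_natCast, Equiv.Perm.inv_eq_iff_eq, g2_pow] at hj
      exact ⟨i, (enc2.injective hj).symm⟩
  · rintro (⟨i, hi⟩ | ⟨i, hi⟩)
    · exact ⟨i, by rw [zpow_natCast, g2_pow, hi]⟩
    · exact ⟨-i, by rw [zpow_neg, zpow_natCast, Equiv.Perm.inv_eq_iff_eq, g2_pow, hi]⟩

theorem lower_gen (l u : ℤ) (D : Finset ℤ) (hD : ∀ n ∈ D, par n = 0)
    (h1 : ∀ n ∈ D, l ≤ 1056 * n ∧ 1056 * n + 1055 ≤ u) :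
    1000 * D.card ≤ (O2 ∩ Set.Icc l u).ncard := by
  classical
  have hsub : (((Finset.univ : Finset (Fin 1000)) ×ˢ D).image
      (fun p => enc2 (Sum.inr p.1, p.2)) : Set ℤ) ⊆ O2 ∩ Set.Icc l u := by
    intro k hk
    simp only [Finset.coe_image, Set.mem_image, Finset.mem_coe, Finset.mem_product,
      Finset.mem_univ, true_and] at hk
    obtain ⟨⟨i, n⟩, hn, rfl⟩ := hk
    have h2 := (idx (Sum.inr i)).isLt
    have h3 := h1 n hn
    refine ⟨?_, ?_, ?_⟩
    · rw [mem_O2, chain_mem_iff]; exact hD n hn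
    · rw [enc2_apply]; simp only [sgn]; omega
    · rw [enc2_apply]; simp only [sgn]; omega
  have hcard := Set.ncard_le_ncard hsub ((Set.finite_Icc l u).inter_of_right _)
  rwa [Set.ncard_coe_finset, Finset.card_image_of_injective _ (by
    rintro ⟨i, n⟩ ⟨i', n'⟩ h
    have := enc2.injective h
    simpa using this), Finset.card_product, Finset.card_univ, Fintype.card_fin] at hcard

theorem upper_gen (l u : ℤ) (R D : Finset ℤ)
    (hR : ∀ n : ℤ, l ≤ 1056 * n + 1055 → 1056 * n ≤ u → n ∈ R)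
    (hD : ∀ n ∈ R, par n = 0 → n ∈ D) :
    (O2 ∩ Set.Icc l u).ncard ≤ 56 * R.card + 1000 * D.card := by
  classical
  have hsub : O2 ∩ Set.Icc l u ⊆
      (((((Finset.univ : Finset (St × Bool × Bool × ZMod 2)) ×ˢ R).image
        (fun p => enc (Sum.inl p.1, p.2))) ∪
      (((Finset.univ : Finset (Fin 1000)) ×ˢ D).image
        (fun p => enc (Sum.inr p.1, p.2))) : Finset ℤ) : Set ℤ) := by
    intro k hk
    obtain ⟨⟨s, n⟩, rfl⟩ := enc.surjective k
    obtain ⟨h3, h1, h2⟩ := hk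
    rw [enc_apply] at h1 h2
    have h4 := (idx s).isLt
    have h5 : n ∈ R := hR n (by omega) (by omega)
    simp only [Finset.coe_union, Finset.coe_image, Set.mem_union, Set.mem_image, Finset.mem_coe,
      Finset.mem_product, Finset.mem_univ, true_and]
    rcases s with s | i
    · left
      exact ⟨(s, n), h5, rfl⟩
    · right
      refine ⟨(i, n), hD n h5 ?_, rfl⟩
      have e : enc (Sum.inr i, n) = enc2 (Sum.inr i, n) := by
        rw [enc_apply, enc2_apply]; simp only [sgn, one_mul]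
      rwa [e, mem_O2, chain_mem_iff] at h3
  have hcard := Set.ncard_le_ncard hsub (Finset.finite_toSet _)
  rw [Set.ncard_coe_finset] at hcard
  have hcard2 := hcard.trans ((Finset.card_union_le _ _).trans
    (Nat.add_le_add Finset.card_image_le Finset.card_image_le))
  rwa [Finset.card_product, Finset.card_product, Finset.card_univ, Finset.card_univ, card_Q0,
    Fintype.card_fin] at hcard2

theorem bad_card_int (K : ℕ) : 20 * ((bad (K + 1)).card : ℤ) ≤ 3 * 3 ^ K := by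
  have hb := bad_card (K + 1)
  have : (20 : ℝ) * ((bad (K + 1)).card : ℝ) ≤ 3 * 3 ^ K := by
    rw [pow_succ] at hb; linarith
  exact_mod_cast this

theorem lower2 (K : ℕ) (hK : ((K + 1 : ℕ) : ZMod 2) = 0) (h27 : (27 : ℤ) ≤ 3 ^ K) (N : ℕ)
    (hN : (N : ℤ) = 1056 * 3 ^ (K + 1)) :
    11 * N ≤ 20 * (O2 ∩ Set.Icc 1 (N : ℤ)).ncard ∧
      11 * N ≤ 20 * (O2 ∩ Set.Icc (-(N : ℤ)) (-1)).ncard := by
  classical
  have p2 : (3 : ℤ) ^ (K + 1) = 3 * 3 ^ K := by ring
  have hb := bad_card_int K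
  constructor
  · have h := lower_gen 1 N (Finset.Ioc ((3 : ℤ) ^ K) (3 ^ (K + 1) - 1) \ bad (K + 1))
      (fun n hn => by
        simp only [Finset.mem_sdiff, Finset.mem_Ioc] at hn
        rw [par_main K n hn.2 (by omega) (by omega) (by omega), hK])
      (fun n hn => by
        simp only [Finset.mem_sdiff, Finset.mem_Ioc] at hn
        omega)
    have h2 := Finset.card_le_card_sdiff_add_card
      (s := Finset.Ioc ((3 : ℤ) ^ K) (3 ^ (K + 1) - 1)) (t := bad (K + 1))
    rw [Int.card_Ioc] at h2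
    omega
  · have h := lower_gen (-(N : ℤ)) (-1)
      (Finset.Ioc (-(3 : ℤ) ^ (K + 1)) (-3 ^ K) \ bad (K + 1))
      (fun n hn => by
        simp only [Finset.mem_sdiff, Finset.mem_Ioc] at hn
        rw [par_main K n hn.2 (by omega) (by omega) (by omega), hK])
      (fun n hn => by
        simp only [Finset.mem_sdiff, Finset.mem_Ioc] at hn
        omega)
    have h2 := Finset.card_le_card_sdiff_add_card
      (s := Finset.Ioc (-(3 : ℤ) ^ (K + 1)) (-3 ^ K)) (t := bad (K + 1))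
    rw [Int.card_Ioc] at h2
    omega

theorem upper2 (K : ℕ) (hK : ((K + 1 : ℕ) : ZMod 2) = 1) (h27 : (27 : ℤ) ≤ 3 ^ K) (N : ℕ)
    (hN : (N : ℤ) = 1056 * 3 ^ (K + 1)) :
    20 * (O2 ∩ Set.Icc 0 (N : ℤ)).ncard ≤ 9 * N ∧
      20 * (O2 ∩ Set.Icc (-(N : ℤ)) 0).ncard ≤ 9 * N := by
  classical
  have p2 : (3 : ℤ) ^ (K + 1) = 3 * 3 ^ K := by ring
  have hb := bad_card_int K
  constructor
  · have h := upper_gen 0 N (Finset.Icc 0 (3 ^ (K + 1)))
      (Finset.Icc 0 ((3 : ℤ) ^ K) ∪ bad (K + 1))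
      (fun n h1 h2 => by simp only [Finset.mem_Icc]; omega)
      (fun n hn hp => by
        simp only [Finset.mem_union, Finset.mem_Icc] at hn ⊢
        by_contra hcon
        simp only [not_or] at hcon
        rw [par_main K n hcon.2 (by omega) (by omega) (by omega), hK] at hp
        exact absurd hp (by decide))
    have h2 := Finset.card_union_le (Finset.Icc 0 ((3 : ℤ) ^ K)) (bad (K + 1))
    rw [Int.card_Icc] at h h2
    omega
  · have h := upper_gen (-(N : ℤ)) 0 (Finset.Icc (-3 ^ (K + 1)) 0)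
      (insert (-(3 : ℤ) ^ (K + 1)) (Finset.Icc (-(3 : ℤ) ^ K) 0 ∪ bad (K + 1)))
      (fun n h1 h2 => by simp only [Finset.mem_Icc]; omega)
      (fun n hn hp => by
        simp only [Finset.mem_insert, Finset.mem_union, Finset.mem_Icc] at hn ⊢
        by_contra hcon
        simp only [not_or] at hcon
        rw [par_main K n hcon.2.2 (by omega) (by omega) (by omega), hK] at hp
        exact absurd hp (by decide))
    have h2 := Finset.card_union_le (Finset.Icc (-(3 : ℤ) ^ K) 0) (bad (K + 1))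
    have h3 := Finset.card_insert_le (-(3 : ℤ) ^ (K + 1))
      (Finset.Icc (-(3 : ℤ) ^ K) 0 ∪ bad (K + 1))
    rw [Int.card_Icc] at h h2
    omega

theorem freq_aux (c : ℕ) (P : ℕ → Prop)
    (h : ∀ j, P (1056 * 3 ^ (2 * j + c + 1))) : ∃ᶠ N in Filter.atTop, P N := by
  rw [Filter.frequently_atTop]
  intro j
  refine ⟨_, ?_, h j⟩
  have := Nat.lt_pow_self (n := 2 * j + c + 1) (by norm_num : 1 < 3)
  omega

theorem pow27 (n : ℕ) (h : 3 ≤ n) : (27 : ℤ) ≤ 3 ^ n :=
  le_trans (by norm_num) (pow_le_pow_right₀ (by norm_num : (1 : ℤ) ≤ 3) h)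

theorem main2 : ∃ (g : Equiv.Perm ℤ) (d : ℕ) (a b : ℕ → ℚ) (n₀ : ℤ), 2 ≤ d ∧ (∀ i, 0 < a i) ∧
    (∀ n : ℤ, (g n : ℚ) = a (n % (d : ℤ)).toNat * (n : ℚ) + b (n % (d : ℤ)).toNat) ∧
    (∃ᶠ N : ℕ in Filter.atTop,
      11 * N ≤ 20 * ({k | ∃ j : ℤ, (g ^ j) n₀ = k} ∩ Set.Icc 1 (N : ℤ)).ncard ∧
      11 * N ≤ 20 * ({k | ∃ j : ℤ, (g ^ j) n₀ = k} ∩ Set.Icc (-(N : ℤ)) (-1)).ncard) ∧
    (∃ᶠ N : ℕ in Filter.atTop,
      20 * ({k | ∃ j : ℤ, (g ^ j) n₀ = k} ∩ Set.Icc 0 (N : ℤ)).ncard ≤ 9 * N ∧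
      20 * ({k | ∃ j : ℤ, (g ^ j) n₀ = k} ∩ Set.Icc (-(N : ℤ)) 0).ncard ≤ 9 * N) := by
  obtain ⟨a, b, ha, hab⟩ := g2_affine
  refine ⟨g2, 354816, a, b, enc2 (base 0), by norm_num, ha, hab, freq_aux 3 _ fun j => ?_,
    freq_aux 4 _ fun j => ?_⟩
  · refine lower2 (2 * j + 3) ?_ (pow27 _ (by omega)) _ (by push_cast; rfl)
    rw [show 2 * j + 3 + 1 = 2 * (j + 2) by ring]; push_cast
    rw [show (2 : ZMod 2) = 0 from rfl]; simp
  · refine upper2 (2 * j + 4) ?_ (pow27 _ (by omega)) _ (by push_cast; rfl)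
    rw [show 2 * j + 4 + 1 = 2 * (j + 2) + 1 by ring]; push_cast
    rw [show (2 : ZMod 2) = 0 from rfl]; simp

end Pool.Agent.P.MP_317f4c_nt
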