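import Pool.Agent.P.MP_317f4c_nt.Machine

/-!
The complete run of the machine from `(s0, x)`.
-/

set_option autoImplicit false

namespace Pool.Agent.P.MP_317f4c_nt

open St

/-- the modulus at level `k` -/
def M (k : ℕ) : ℤ := 14 * 3 ^ (2 * k + 3)

/-- the events: `x ≡ 3 ^ k` modulo `M k` for some `k` -/
def Ev (x : ℤ) : Prop := ∃ k : ℕ, M k ∣ x - 3 ^ k

/-- accepting configurations -/
def Acc (e : St × ℤ) : Prop := e.1 = p2 ∧ e.2 % 3 = 1

instance (e : St × ℤ) : Decidable (Acc e) := by unfold Acc; infer_instance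

/-- the lowest nonzero ternary digit of `y` is `d` -/
def Dig (d : ℤ) (y : ℤ) : Prop := ∃ (j : ℕ) (w : ℤ), y = 3 ^ j * w ∧ w % 3 = d

theorem exists_split (y : ℤ) (hy : y ≠ 0) : ∃ (j : ℕ) (w : ℤ), y = 3 ^ j * w ∧ w % 3 ≠ 0 := by
  obtain ⟨j, w, hw, e⟩ := WfDvdMonoid.max_power_factor hy prime3.irreducible
  exact ⟨j, w, e, fun h => hw (Int.dvd_of_emod_eq_zero h)⟩

theorem split_unique {i j : ℕ} {v w : ℤ} (h : (3 : ℤ) ^ i * v = 3 ^ j * w)
    (hv : v % 3 ≠ 0) (hw : w % 3 ≠ 0) : i = j ∧ v = w := by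
  have key : ∀ {i j : ℕ} {v w : ℤ}, (3 : ℤ) ^ i * v = 3 ^ j * w → v % 3 ≠ 0 → ¬ i < j := by
    intro i j v w h hv hij
    obtain ⟨d, rfl⟩ := Nat.exists_eq_add_of_lt hij
    have e : (3 : ℤ) ^ (i + d + 1) * w = 3 ^ i * (3 * (3 ^ d * w)) := by ring
    rw [e] at h
    have := mul_left_cancel₀ (pow_ne_zero i (by norm_num : (3 : ℤ) ≠ 0)) h
    omega
  have hij : i = j := by
    have h1 := key h hv
    have h2 := key h.symm hw
    omega
  subst hij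
  exact ⟨rfl, mul_left_cancel₀ (pow_ne_zero i (by norm_num : (3 : ℤ) ≠ 0)) h⟩

theorem Dig.excl {y : ℤ} (h1 : Dig 1 y) (h2 : Dig 2 y) : False := by
  obtain ⟨i, v, e1, hv⟩ := h1
  obtain ⟨j, w, e2, hw⟩ := h2
  have := (split_unique (e1.symm.trans e2) (by omega) (by omega)).2
  omega

theorem pow_three_pow (g s : ℤ) (hg : g = 1 + 3 * s) (m : ℕ) :
    ∃ w : ℤ, g ^ (3 ^ m) = 1 + 3 ^ (m + 1) * (s + 3 * w) := by
  induction m with
  | zero => exact ⟨0, by rw [hg]; ring⟩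
  | succ m ih =>
    obtain ⟨w, hw⟩ := ih
    refine ⟨w + 3 ^ m * (s + 3 * w) ^ 2 + 3 ^ (2 * m) * (s + 3 * w) ^ 3, ?_⟩
    rw [pow_succ 3 m, pow_mul, hw]; ring

theorem key_iff (m : ℕ) (u : ℤ) :
    (Dig 2 (7 ^ (3 ^ m) * u - 1) ∧ Dig 1 (4 ^ (3 ^ m) * u - 1)) ↔ 3 ^ (m + 2) ∣ u - 1 := by
  obtain ⟨w, hw⟩ := pow_three_pow 7 2 (by norm_num) m
  obtain ⟨w', hw'⟩ := pow_three_pow 4 1 (by norm_num) m
  rw [hw, hw']
  constructor
  · rintro ⟨hA, hB⟩
    obtain ⟨i, v, e, hv⟩ := id hB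
    by_cases hi : i < m + 1
    · exfalso
      obtain ⟨d, hd⟩ := Nat.exists_eq_add_of_lt hi
      refine Dig.excl ⟨i, v + 3 * (3 ^ d * ((1 + 3 * (w - w')) * u)), ?_, by omega⟩ hA
      have : (3 : ℤ) ^ (m + 1) = 3 ^ i * 3 ^ d * 3 := by rw [hd]; ring
      rw [this] at e ⊢
      linear_combination e
    · obtain ⟨d, hd⟩ := Nat.exists_eq_add_of_le (not_lt.mp hi)
      obtain ⟨z, hz⟩ : ∃ z, u = 1 + 3 ^ (m + 1) * z := by
        refine ⟨3 ^ d * v - (1 + 3 * w') * u, ?_⟩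
        rw [hd] at e
        linear_combination e
      have h3 : z % 3 = 0 ∨ z % 3 = 1 ∨ z % 3 = 2 := by omega
      rcases h3 with h3 | h3 | h3
      · obtain ⟨z', rfl⟩ := Int.dvd_of_emod_eq_zero h3
        exact ⟨z', by rw [hz]; ring⟩
      · exfalso
        refine Dig.excl hB ⟨m + 1, 1 + z + 3 * (w' + 3 ^ m * (1 + 3 * w') * z), ?_, by omega⟩
        rw [hz]; ring
      · exfalso
        refine Dig.excl ⟨m + 1, 2 + z + 3 * (w + 3 ^ m * (2 + 3 * w) * z), ?_, by omega⟩ hA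
        rw [hz]; ring
  · rintro ⟨z, hz⟩
    have hu : u = 1 + 3 ^ (m + 2) * z := by linear_combination hz
    constructor
    · refine ⟨m + 1, 2 + 3 * (w + z + 3 ^ (m + 1) * (2 + 3 * w) * z), ?_, by omega⟩
      rw [hu]; ring
    · refine ⟨m + 1, 1 + 3 * (w' + z + 3 ^ (m + 1) * (1 + 3 * w') * z), ?_, by omega⟩
      rw [hu]; ring

theorem ev_iff (a : ℕ) (u : ℤ) (hu : u % 3 ≠ 0) :
    Ev (3 ^ a * u) ↔ (u % 2 = 1 ∧ u % 7 = 1 ∧ 3 ^ (a + 3) ∣ u - 1) := by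
  constructor
  · rintro ⟨k, z, hz⟩
    have e : (3 : ℤ) ^ a * u = 3 ^ k * (1 + 3 * (14 * 3 ^ (k + 2) * z)) := by
      unfold M at hz; linear_combination hz
    obtain ⟨rfl, e2⟩ := split_unique e hu (by omega)
    have e3 : u = 1 + 14 * (3 ^ (a + 3) * z) := by rw [e2]; ring
    refine ⟨by omega, by omega, 14 * z, ?_⟩
    rw [e3]; ring
  · rintro ⟨h2, h7, z, hz⟩
    have hz2 : z % 2 = 0 := by
      by_contra h
      have := pow_mul_emod_ne 2 3 prime2 (a + 3) z (by norm_num) h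
      omega
    have hz7 : z % 7 = 0 := by
      by_contra h
      have := pow_mul_emod_ne 7 3 prime7 (a + 3) z (by norm_num) h
      omega
    obtain ⟨z', rfl⟩ : ∃ z', z = 14 * z' := ⟨z / 14, by omega⟩
    refine ⟨a, z', ?_⟩
    unfold M
    linear_combination (3 : ℤ) ^ a * hz

theorem pow_mul_emod_three (g : ℤ) (hg : g % 3 = 1) (j : ℕ) (w : ℤ) :
    (g ^ j * w) % 3 = w % 3 := by
  induction j with
  | zero => simp
  | succ j ih =>
    have e : g ^ (j + 1) * w = g * (g ^ j * w) := by ring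
    rw [e, Int.mul_emod, hg, ih]; simp

theorem run (x : ℤ) : ∃ e, Reach (s0, x) e ∧ F e = none ∧ (Acc e ↔ Ev x) := by
  by_cases hx : x % 2 = 1 ∧ x % 7 ≠ 0
  swap
  · refine ⟨(s0, x), Reach.refl _, by simp only [F]; rw [if_neg hx], ?_⟩
    constructor
    · rintro ⟨h, _⟩; cases h
    · rintro ⟨k, z, hz⟩
      exfalso
      have h2 := pow_mul_emod_ne 2 3 prime2 k 1 (by norm_num) (by norm_num)
      have h7 := pow_mul_emod_ne 7 3 prime7 k 1 (by norm_num) (by norm_num)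
      have e : x = 3 ^ k * 1 + 14 * (3 ^ (2 * k + 3) * z) := by
        unfold M at hz; linear_combination hz
      omega
  obtain ⟨a, u, rfl, hu3⟩ := exists_split x (by omega)
  have hu2 : u % 2 ≠ 0 := by
    intro h; obtain ⟨z, rfl⟩ := Int.dvd_of_emod_eq_zero h
    have e : (3 : ℤ) ^ a * (2 * z) = 2 * (3 ^ a * z) := by ring
    omega
  have hu7 : u % 7 ≠ 0 := by
    intro h; obtain ⟨z, rfl⟩ := Int.dvd_of_emod_eq_zero h
    have e : (3 : ℤ) ^ a * (7 * z) = 7 * (3 ^ a * z) := by ring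
    omega
  rw [ev_iff a u hu3]
  have hk := key_iff (a + 1) u
  have r0 : Reach (s0, 3 ^ a * u) (t2, 7 ^ (3 ^ (a + 1)) * u) := by
    have s0' : F (s0, 3 ^ a * u) = some (t2, 2 ^ (3 ^ (0 + 1)) * (3 ^ a * u)) := by
      simp only [F]; rw [if_pos hx]; norm_num
    have := main_loop u hu2 hu7 a 0
    rw [show 0 + 1 + a = a + 1 by ring] at this
    exact (Reach.step s0').trans this
  obtain ⟨c, hc⟩ : ∃ c, 3 ^ (a + 1) = 3 * (c + 1) := by
    refine ⟨3 ^ a - 1, ?_⟩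
    have : 1 ≤ 3 ^ a := Nat.one_le_pow _ _ (by norm_num)
    rw [pow_succ]; omega
  have x12 : ((7 : ℤ) ^ (3 ^ (a + 1)) * u) % 2 ≠ 0 :=
    pow_mul_emod_ne 2 7 prime2 _ _ (by norm_num) hu2
  have x13 : ((7 : ℤ) ^ (3 ^ (a + 1)) * u) % 3 ≠ 0 :=
    pow_mul_emod_ne 3 7 prime3 _ _ (by norm_num) hu3
  have x17 : ((7 : ℤ) ^ (3 ^ (a + 1)) * u) % 7 = 0 := by
    have e : (7 : ℤ) ^ (3 ^ (a + 1)) * u = 7 * (7 ^ (3 * c + 2) * u) := by rw [hc]; ring
    omega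
  have x22 : ((4 : ℤ) ^ (3 ^ (a + 1)) * u) % 2 = 0 := by
    have e : (4 : ℤ) ^ (3 ^ (a + 1)) * u = 2 * (2 * 4 ^ (3 * c + 2) * u) := by rw [hc]; ring
    omega
  have x27 : ((4 : ℤ) ^ (3 ^ (a + 1)) * u) % 7 = u % 7 := by
    rw [hc, pow_mul]
    generalize c + 1 = n
    induction n with
    | zero => simp
    | succ n ih =>
      have e : ((4 : ℤ) ^ 3) ^ (n + 1) * u = 64 * ((4 ^ 3) ^ n * u) := by ring
      omega
  have r1 : Reach (t2, 7 ^ (3 ^ (a + 1)) * u) (p1, 7 ^ (3 ^ (a + 1)) * u - 1) := by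
    apply Reach.step
    simp only [F]; rw [if_neg x12, if_neg x13, if_pos x17]
  obtain ⟨j, A, hA, hA3⟩ := exists_split (7 ^ (3 ^ (a + 1)) * u - 1) (by omega)
  have r2 : Reach (p1, 7 ^ (3 ^ (a + 1)) * u - 1) (p1, 7 ^ j * A) := by
    rw [hA]; exact loop_p1 _ _
  have A3 := pow_mul_emod_three 7 (by norm_num) j A
  by_cases hA2 : A % 3 = 2
  swap
  · refine ⟨(p1, 7 ^ j * A), r0.trans (r1.trans r2), ?_, ?_⟩
    · simp only [F]; rw [if_neg (by omega), if_neg (by omega)]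
    · constructor
      · rintro ⟨h, _⟩; cases h
      · rintro ⟨_, _, h⟩
        exact (Dig.excl ⟨j, A, hA, by omega⟩ (hk.mpr h).1).elim
  have r3 : Reach (p1, 7 ^ j * A) (t3, 4 ^ (3 ^ (a + 1)) * u) := by
    have s1 : F (p1, 7 ^ j * A) = some (b1, 7 ^ j * A) := by
      simp only [F]; rw [if_neg (by omega), if_pos (by omega)]
    have s2 := loop_b1 j A
    rw [← hA] at s2
    have s3 : F (b1, 7 ^ (3 ^ (a + 1)) * u - 1) = some (t3, 7 ^ (3 ^ (a + 1)) * u) := by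
      simp only [F]; rw [if_neg (by omega), if_pos (by omega)]; congr 2; ring
    exact (Reach.step s1).trans (s2.trans ((Reach.step s3).trans (loop_t3 _ _)))
  by_cases hu1 : u % 7 = 1
  swap
  · refine ⟨(t3, 4 ^ (3 ^ (a + 1)) * u), r0.trans (r1.trans (r2.trans r3)), ?_, ?_⟩
    · simp only [F]; rw [if_neg (by omega), if_neg (by omega)]
    · constructor
      · rintro ⟨h, _⟩; cases h
      · rintro ⟨_, h, _⟩; exact (hu1 h).elim
  obtain ⟨i, C, hC, hC3⟩ := exists_split (4 ^ (3 ^ (a + 1)) * u - 1) (by omega)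
  have r4 : Reach (t3, 4 ^ (3 ^ (a + 1)) * u) (p2, 4 ^ i * C) := by
    have s1 : F (t3, 4 ^ (3 ^ (a + 1)) * u) = some (p2, 4 ^ (3 ^ (a + 1)) * u - 1) := by
      simp only [F]; rw [if_neg (by omega), if_pos (by omega)]
    have s2 := loop_p2 i C
    rw [← hC] at s2
    exact (Reach.step s1).trans s2
  have C3 := pow_mul_emod_three 4 (by norm_num) i C
  refine ⟨(p2, 4 ^ i * C), r0.trans (r1.trans (r2.trans (r3.trans r4))), ?_, ?_⟩
  · simp only [F]; rw [if_neg (by omega)]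
  · constructor
    · rintro ⟨_, h⟩
      have h' : (4 ^ i * C) % 3 = 1 := h
      exact ⟨by omega, hu1, hk.mp ⟨⟨j, A, hA, hA2⟩, ⟨i, C, hC, by omega⟩⟩⟩
    · rintro ⟨_, _, h⟩
      refine ⟨rfl, ?_⟩
      show (4 ^ i * C) % 3 = 1
      by_contra hne
      exact Dig.excl (hk.mpr h).2 ⟨i, C, hC, by omega⟩

end Pool.Agent.P.MP_317f4c_nt
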